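import Pool.Agent.H60R2.UF.Tensor

/-!
# The associator is unitary when the F-matrices are
-/

set_option autoImplicit false
set_option linter.unusedSectionVars false

open CategoryTheory CategoryTheory.Limits MonoidalCategory

namespace Pool.Agent.H60R2.UF

open Pool.Agent.Helper781.Fusion

universe w v u

variable {C : Type u} [Category.{v} C] [Abelian C] [Linear ℂ C]
variable {r : ℕ} {S : Fin r → C} (hS : IsSimpleList S) [hfd : ∀ X Y : C, FiniteDimensional ℂ (X ⟶ Y)]
variable [MonoidalCategory C] [MonoidalPreadditive C] [MonoidalLinear ℂ C]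
variable (G : ∀ a b : Fin r, Frame S (S a ⊗ S b))

/-- An entry of an F-matrix. -/
noncomputable def fEntry (a b c d e f : Fin r) (μ : (G a b).J e) (ν : (G e c).J d)
    (μ' : (G b c).J f) (ν' : (G a f).J d) : ℂ :=
  sc hS d ((G e c).inc d ν ≫ (G a b).inc e μ ▷ S c ≫ (α_ (S a) (S b) (S c)).hom ≫
    S a ◁ (G b c).prj f μ' ≫ (G a f).prj d ν')

/-- An entry of the inverse of an F-matrix. -/
noncomputable def fEntryInv (a b c d e f : Fin r) (μ : (G a b).J e) (ν : (G e c).J d)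
    (μ' : (G b c).J f) (ν' : (G a f).J d) : ℂ :=
  sc hS d ((G a f).inc d ν' ≫ S a ◁ (G b c).inc f μ' ≫ (α_ (S a) (S b) (S c)).inv ≫
    (G a b).prj e μ ▷ S c ≫ (G e c).prj d ν)

/-- Unitarity of the F-matrices, in terms of entries. -/
def UFrame : Prop := ∀ (a b c d e f : Fin r) (μ : (G a b).J e) (ν : (G e c).J d)
    (μ' : (G b c).J f) (ν' : (G a f).J d),
    fEntryInv hS G a b c d e f μ ν μ' ν' = (starRingEnd ℂ) (fEntry hS G a b c d e f μ ν μ' ν')

variable {X Y Z : C} (FX : Frame S X) (FY : Frame S Y) (FZ : Frame S Z)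

lemma assoc_entry (a b c d e f a' b' c' : Fin r) (x : FX.J a) (y : FY.J b) (z : FZ.J c)
    (x' : FX.J a') (y' : FY.J b') (z' : FZ.J c') (μ : (G a b).J e) (ν : (G e c).J d)
    (μ' : (G b' c').J f) (ν' : (G a' f).J d) :
    (tensorFrame hS G (tensorFrame hS G FX FY) FZ).inc d ⟨e, c, ⟨a, b, x, y, μ⟩, z, ν⟩ ≫
      (α_ X Y Z).hom ≫
      (tensorFrame hS G FX (tensorFrame hS G FY FZ)).prj d ⟨a', f, x', ⟨b', c', y', z', μ'⟩, ν'⟩ =
    (G e c).inc d ν ≫ (G a b).inc e μ ▷ S c ≫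
      (((FX.inc a x ≫ FX.prj a' x') ⊗ₘ (FY.inc b y ≫ FY.prj b' y')) ⊗ₘ
        (FZ.inc c z ≫ FZ.prj c' z')) ≫ (α_ (S a') (S b') (S c')).hom ≫
      S a' ◁ (G b' c').prj f μ' ≫ (G a' f).prj d ν' := by
  rw [tensorFrame_inc, tensorFrame_inc, tensorFrame_prj, tensorFrame_prj]
  simp only [Category.assoc]
  congr 1
  have e1 : (((G a b).inc e μ ≫ (FX.inc a x ⊗ₘ FY.inc b y)) ⊗ₘ FZ.inc c z) =
      (G a b).inc e μ ▷ S c ≫ ((FX.inc a x ⊗ₘ FY.inc b y) ⊗ₘ FZ.inc c z) := by
    rw [← tensorHom_id, MonoidalCategory.tensorHom_comp_tensorHom, Category.id_comp]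
  have e2 : (FX.prj a' x' ⊗ₘ ((FY.prj b' y' ⊗ₘ FZ.prj c' z') ≫ (G b' c').prj f μ')) =
      (FX.prj a' x' ⊗ₘ (FY.prj b' y' ⊗ₘ FZ.prj c' z')) ≫ S a' ◁ (G b' c').prj f μ' := by
    rw [← id_tensorHom, MonoidalCategory.tensorHom_comp_tensorHom, Category.comp_id]
  rw [e1, e2]
  simp only [Category.assoc]
  rw [← MonoidalCategory.associator_naturality_assoc,
    MonoidalCategory.tensorHom_comp_tensorHom_assoc,
    MonoidalCategory.tensorHom_comp_tensorHom]

lemma assoc_inv_entry (a b c d e f a' b' c' : Fin r) (x : FX.J a) (y : FY.J b) (z : FZ.J c)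
    (x' : FX.J a') (y' : FY.J b') (z' : FZ.J c') (μ : (G a b).J e) (ν : (G e c).J d)
    (μ' : (G b' c').J f) (ν' : (G a' f).J d) :
    (tensorFrame hS G FX (tensorFrame hS G FY FZ)).inc d ⟨a', f, x', ⟨b', c', y', z', μ'⟩, ν'⟩ ≫
      (α_ X Y Z).inv ≫
      (tensorFrame hS G (tensorFrame hS G FX FY) FZ).prj d ⟨e, c, ⟨a, b, x, y, μ⟩, z, ν⟩ =
    (G a' f).inc d ν' ≫ S a' ◁ (G b' c').inc f μ' ≫
      ((FX.inc a' x' ≫ FX.prj a x) ⊗ₘ ((FY.inc b' y' ≫ FY.prj b y) ⊗ₘ
        (FZ.inc c' z' ≫ FZ.prj c z))) ≫ (α_ (S a) (S b) (S c)).inv ≫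
      (G a b).prj e μ ▷ S c ≫ (G e c).prj d ν := by
  rw [tensorFrame_inc, tensorFrame_inc, tensorFrame_prj, tensorFrame_prj]
  simp only [Category.assoc]
  congr 1
  have e1 : (FX.inc a' x' ⊗ₘ ((G b' c').inc f μ' ≫ (FY.inc b' y' ⊗ₘ FZ.inc c' z'))) =
      S a' ◁ (G b' c').inc f μ' ≫ (FX.inc a' x' ⊗ₘ (FY.inc b' y' ⊗ₘ FZ.inc c' z')) := by
    rw [← id_tensorHom, MonoidalCategory.tensorHom_comp_tensorHom, Category.id_comp]
  have e2 : (((FX.prj a x ⊗ₘ FY.prj b y) ≫ (G a b).prj e μ) ⊗ₘ FZ.prj c z) =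
      ((FX.prj a x ⊗ₘ FY.prj b y) ⊗ₘ FZ.prj c z) ≫ (G a b).prj e μ ▷ S c := by
    rw [← tensorHom_id, MonoidalCategory.tensorHom_comp_tensorHom, Category.comp_id]
  rw [e1, e2]
  simp only [Category.assoc]
  rw [← MonoidalCategory.associator_inv_naturality_assoc,
    MonoidalCategory.tensorHom_comp_tensorHom_assoc,
    MonoidalCategory.tensorHom_comp_tensorHom]

lemma dagF_associator (hG : UFrame hS G) :
    dagF hS (tensorFrame hS G (tensorFrame hS G FX FY) FZ)
      (tensorFrame hS G FX (tensorFrame hS G FY FZ)) (α_ X Y Z).hom = (α_ X Y Z).inv := by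
  classical
  apply dagF_eq_of_mat
  rintro d ⟨e, c, ⟨a, b, x, y, μ⟩, z, ν⟩ ⟨a', f, x', ⟨b', c', y', z', μ'⟩, ν'⟩
  rw [mat_apply, mat_apply, assoc_entry, assoc_inv_entry]
  by_cases ha : a = a'
  · subst ha
    by_cases hb : b = b'
    · subst hb
      by_cases hc : c = c'
      · subst hc
        by_cases hx : x = x'
        · subst hx
          by_cases hy : y = y'
          · subst hy
            by_cases hz : z = z'
            · subst hz
              rw [FX.same, FY.same, FZ.same]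
              simp only [id_tensorHom_id, Category.id_comp]
              exact hG a b c d e f μ ν μ' ν'
            · rw [FZ.diff c z z' hz, FZ.diff c z' z (Ne.symm hz)]
              simp
          · rw [FY.diff b y y' hy, FY.diff b y' y (Ne.symm hy)]
            simp
        · rw [FX.diff a x x' hx, FX.diff a x' x (Ne.symm hx)]
          simp
      · rw [hom_zero hS hc (FZ.inc c z ≫ FZ.prj c' z'),
          hom_zero hS (Ne.symm hc) (FZ.inc c' z' ≫ FZ.prj c z)]
        simp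
    · rw [hom_zero hS hb (FY.inc b y ≫ FY.prj b' y'),
        hom_zero hS (Ne.symm hb) (FY.inc b' y' ≫ FY.prj b y)]
      simp
  · rw [hom_zero hS ha (FX.inc a x ≫ FX.prj a' x'),
      hom_zero hS (Ne.symm ha) (FX.inc a' x' ≫ FX.prj a x)]
    simp

/-! ### From unitary F-matrices to `UFrame` -/

/-- The frame on `S a ⊗ S b` given by a gauge. -/
noncomputable def gaugeFrame (F0 : ∀ Z : C, Frame S Z) (g : Gauge S) (a b : Fin r) :
    Frame S (S a ⊗ S b) :=
  frameOfBases hS (F0 (S a ⊗ S b)) (g a b)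

lemma gaugeFrame_inc (F0 : ∀ Z : C, Frame S Z) (g : Gauge S) (a b k : Fin r)
    (μ : Fin (mult S a b k)) : (gaugeFrame hS F0 g a b).inc k μ = g a b k μ := rfl

variable (F0 : ∀ Z : C, Frame S Z) (g : Gauge S)

/-- Dual trees. -/
noncomputable def cotreeL (a b c d : Fin r) (x : LIdx S a b c d) :
    (S a ⊗ S b) ⊗ S c ⟶ S d :=
  (gaugeFrame hS F0 g a b).prj x.1 x.2.1 ▷ S c ≫ (gaugeFrame hS F0 g x.1 c).prj d x.2.2

/-- Dual trees. -/
noncomputable def cotreeR (a b c d : Fin r) (y : RIdx S a b c d) :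
    S a ⊗ (S b ⊗ S c) ⟶ S d :=
  S a ◁ (gaugeFrame hS F0 g b c).prj y.1 y.2.1 ≫ (gaugeFrame hS F0 g a y.1).prj d y.2.2

open Classical in
lemma treeL_cotreeL (a b c d : Fin r) (x x' : LIdx S a b c d) :
    treeL g a b c d x ≫ cotreeL hS F0 g a b c d x' = if x = x' then 𝟙 (S d) else 0 := by
  obtain ⟨e, μ, ν⟩ := x
  obtain ⟨e', μ', ν'⟩ := x'
  unfold treeL cotreeL
  simp only [Category.assoc]
  rw [← comp_whiskerRight_assoc]
  by_cases he : e = e'
  · subst he
    by_cases hμ : μ = μ'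
    · subst hμ
      have h1 : g a b e μ ≫ (gaugeFrame hS F0 g a b).prj e μ = 𝟙 (S e) :=
        (gaugeFrame hS F0 g a b).same e μ
      rw [h1, id_whiskerRight, Category.id_comp]
      have h2 := (gaugeFrame hS F0 g e c).orth d ν ν'
      rw [gaugeFrame_inc] at h2
      rw [h2]
      simp only [Sigma.mk.injEq, heq_eq_eq, Prod.mk.injEq, true_and]
      congr
    · have h1 : g a b e μ ≫ (gaugeFrame hS F0 g a b).prj e μ' = 0 :=
        (gaugeFrame hS F0 g a b).diff e μ μ' hμ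
      rw [h1, if_neg]
      · simp
      · simp [hμ]
  · rw [hom_zero hS he (g a b e μ ≫ (gaugeFrame hS F0 g a b).prj e' μ'), if_neg]
    · simp
    · intro h
      simp only [Sigma.mk.injEq] at h
      exact he h.1

open Classical in
lemma treeR_cotreeR (a b c d : Fin r) (x x' : RIdx S a b c d) :
    treeR g a b c d x ≫ cotreeR hS F0 g a b c d x' = if x = x' then 𝟙 (S d) else 0 := by
  obtain ⟨e, μ, ν⟩ := x
  obtain ⟨e', μ', ν'⟩ := x'
  unfold treeR cotreeR
  simp only [Category.assoc]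
  rw [← MonoidalCategory.whiskerLeft_comp_assoc]
  by_cases he : e = e'
  · subst he
    by_cases hμ : μ = μ'
    · subst hμ
      have h1 : g b c e μ ≫ (gaugeFrame hS F0 g b c).prj e μ = 𝟙 (S e) :=
        (gaugeFrame hS F0 g b c).same e μ
      rw [h1, MonoidalCategory.whiskerLeft_id, Category.id_comp]
      have h2 := (gaugeFrame hS F0 g a e).orth d ν ν'
      rw [gaugeFrame_inc] at h2
      rw [h2]
      simp only [Sigma.mk.injEq, heq_eq_eq, Prod.mk.injEq, true_and]
      congr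
    · have h1 : g b c e μ ≫ (gaugeFrame hS F0 g b c).prj e μ' = 0 :=
        (gaugeFrame hS F0 g b c).diff e μ μ' hμ
      rw [h1, if_neg]
      · simp
      · simp [hμ]
  · rw [hom_zero hS he (g b c e μ ≫ (gaugeFrame hS F0 g b c).prj e' μ'), if_neg]
    · simp
    · intro h
      simp only [Sigma.mk.injEq] at h
      exact he h.1

lemma uframe_of_unitary (hg : HasUnitaryF g) : UFrame hS (gaugeFrame hS F0 g) := by
  classical
  intro a b c d e f μ ν μ' ν'
  obtain ⟨M, hM, hM1, hM2⟩ := hg a b c d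
  have h1 : ∀ x y, sc hS d (treeL g a b c d x ≫ (α_ (S a) (S b) (S c)).hom ≫
      cotreeR hS F0 g a b c d y) = M y x := by
    intro x y
    rw [← Category.assoc, hM x, Preadditive.sum_comp]
    simp_rw [Linear.smul_comp, treeR_cotreeR]
    rw [Finset.sum_eq_single y (fun y' _ h => by rw [if_neg h, smul_zero])
      (fun h => absurd (Finset.mem_univ _) h), if_pos rfl, sc_smul_one]
  set M' : Matrix (LIdx S a b c d) (RIdx S a b c d) ℂ := fun x y =>
    sc hS d (treeR g a b c d y ≫ (α_ (S a) (S b) (S c)).inv ≫ cotreeL hS F0 g a b c d x) with hM'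
  have h2 : M' * M = 1 := by
    ext x x'
    rw [Matrix.mul_apply, Matrix.one_apply]
    have h3 : treeL g a b c d x' ≫ cotreeL hS F0 g a b c d x =
        ∑ y, M y x' • (treeR g a b c d y ≫ (α_ (S a) (S b) (S c)).inv ≫
          cotreeL hS F0 g a b c d x) := by
      simp_rw [← Linear.smul_comp]
      rw [← Preadditive.sum_comp, ← hM x']
      simp
    have h4 := congrArg (sc hS d) h3
    rw [treeL_cotreeL, map_sum] at h4
    simp_rw [map_smul, smul_eq_mul] at h4
    simp only [hM', mul_comm] at h4 ⊢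
    rw [← h4]
    split_ifs with h5 h6 h6
    · simp
    · exact absurd h5.symm h6
    · exact absurd h6.symm h5
    · simp
  have h5 : M' = M.conjTranspose := by
    calc M' = M' * (M * M.conjTranspose) := by rw [hM2, Matrix.mul_one]
      _ = M.conjTranspose := by rw [← Matrix.mul_assoc, h2, Matrix.one_mul]
  have h6 := congrFun (congrFun h5 ⟨e, μ, ν⟩) ⟨f, μ', ν'⟩
  rw [Matrix.conjTranspose_apply, ← h1 ⟨e, μ, ν⟩ ⟨f, μ', ν'⟩] at h6
  simp only [hM', treeL, treeR, cotreeL, cotreeR, Category.assoc] at h6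
  unfold fEntry fEntryInv
  simp only [gaugeFrame_inc]
  exact h6

end Pool.Agent.H60R2.UF
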