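import Pool.Agent.H60R2.UF.Main

/-!
# Unitary fusion categories have gauges with unitary F-matrices
-/

set_option autoImplicit false
set_option linter.unusedSectionVars false

open CategoryTheory CategoryTheory.Limits MonoidalCategory

namespace Pool.Agent.H60R2.UF

open Pool.Agent.Helper781.Fusion

universe w v u

lemma exists_onb {E : Type*} [AddCommGroup E] [Module ℂ E] [FiniteDimensional ℂ E]
    (c : InnerProductSpace.Core ℂ E) :
    ∃ b : Module.Basis (Fin (Module.finrank ℂ E)) ℂ E, ∀ i j, c.inner (b i) (b j) =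
      if i = j then 1 else 0 := by
  let _ : NormedAddCommGroup E := c.toNormedAddCommGroup
  let _ : InnerProductSpace ℂ E := InnerProductSpace.ofCore c.toCore
  let b := stdOrthonormalBasis ℂ E
  refine ⟨b.toBasis, fun i j => ?_⟩
  have h := orthonormal_iff_ite.mp b.orthonormal i j
  simp only [OrthonormalBasis.coe_toBasis]
  exact h

section D

variable {D : Type w} [Category.{v} D] [Preadditive D] [Linear ℂ D]

/-- The scalar of an endomorphism. -/
noncomputable def scal {X : D} (hX : IsScalar X) (f : X ⟶ X) : ℂ := (hX.scalar f).choose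

lemma scal_spec {X : D} (hX : IsScalar X) (f : X ⟶ X) : f = scal hX f • 𝟙 X :=
  (hX.scalar f).choose_spec

lemma scal_eq {X : D} (hX : IsScalar X) (f : X ⟶ X) (c : ℂ) (h : f = c • 𝟙 X) :
    scal hX f = c := by
  have h2 := scal_spec hX f
  rw [h] at h2
  have h3 := smul_left_injective ℂ hX.id_ne h2
  rw [h]
  exact h3.symm

lemma scal_add {X : D} (hX : IsScalar X) (f g : X ⟶ X) :
    scal hX (f + g) = scal hX f + scal hX g := by
  apply scal_eq
  rw [add_smul, ← scal_spec, ← scal_spec]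

lemma scal_smul {X : D} (hX : IsScalar X) (c : ℂ) (f : X ⟶ X) :
    scal hX (c • f) = c * scal hX f := by
  apply scal_eq
  rw [mul_smul, ← scal_spec]

variable [MonoidalCategory D] (A : CStarTensor D)

lemma scal_dag {X : D} (hX : IsScalar X) (f : X ⟶ X) :
    scal hX (A.dag f) = (starRingEnd ℂ) (scal hX f) := by
  apply scal_eq
  conv_lhs => rw [scal_spec hX f]
  rw [A.dag_smul, A.dag_id]

/-- The inner product on `Hom(X, Z)` for `X` simple. -/
@[instance_reducible]
noncomputable def core {X : D} (hX : IsScalar X) (Z : D) : InnerProductSpace.Core ℂ (X ⟶ Z) where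
  inner x y := scal hX (y ≫ A.dag x)
  conj_inner_symm x y := by
    rw [← scal_dag, A.dag_comp, A.dag_dag]
  re_inner_nonneg x := by
    rw [A.comp_dag_eq hX, scal_eq hX _ _ rfl]
    simp only [RCLike.re_to_complex, Complex.ofReal_re]
    positivity
  add_left x y z := by
    rw [A.dag_add, Preadditive.comp_add, scal_add]
  smul_left x y c := by
    rw [A.dag_smul, Linear.comp_smul, scal_smul]
  definite x h := by
    rw [A.comp_dag_eq hX, scal_eq hX _ _ rfl] at h
    have h2 : A.nrm x ^ 2 = 0 := by exact_mod_cast h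
    exact A.eq_zero_of_nrm _ (pow_eq_zero_iff two_ne_zero |>.mp h2)

lemma exists_orthonormal {X : D} (hX : IsScalar X) (Z : D) [FiniteDimensional ℂ (X ⟶ Z)] :
    ∃ b : Module.Basis (Fin (Module.finrank ℂ (X ⟶ Z))) ℂ (X ⟶ Z), ∀ i j,
      b i ≫ A.dag (b j) = if i = j then 𝟙 X else 0 := by
  obtain ⟨b, hb⟩ := exists_onb (core A hX Z)
  refine ⟨b, fun i j => ?_⟩
  have h := hb j i
  change scal hX (b i ≫ A.dag (b j)) = _ at h
  rw [scal_spec hX (b i ≫ A.dag (b j)), h]
  by_cases hij : i = j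
  · subst hij; simp
  · rw [if_neg hij, if_neg (Ne.symm hij), zero_smul]

end D

section FM

variable {C : Type u} [Category.{v} C] [Abelian C] [Linear ℂ C]
variable [MonoidalCategory C] [MonoidalPreadditive C] [MonoidalLinear ℂ C]
variable {r : ℕ} {S : Fin r → C} (hS : IsSimpleList S)
variable [hfd : ∀ X Y : C, FiniteDimensional ℂ (X ⟶ Y)]
variable (F0 : ∀ Z : C, Frame S Z) (g : Gauge S)

lemma frame_expand {Z : C} (F : Frame S Z) {d : Fin r} (h : S d ⟶ Z) :
    h = ∑ a, sc hS d (h ≫ F.prj d a) • F.inc d a := by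
  conv_lhs => rw [← Category.comp_id h, ← F.total, Preadditive.comp_sum,
    Finset.sum_eq_single d (fun j _ hj => by
      rw [Preadditive.comp_sum]
      refine Finset.sum_eq_zero fun b _ => ?_
      rw [← Category.assoc, hom_zero hS (Ne.symm hj) (h ≫ F.prj j b), zero_comp])
    (fun h => absurd (Finset.mem_univ _) h), Preadditive.comp_sum]
  refine Finset.sum_congr rfl fun a _ => ?_
  rw [← Category.assoc]
  conv_lhs => rw [sc_spec hS d (h ≫ F.prj d a)]
  simp

lemma expandL (a b c d : Fin r) (h : S d ⟶ (S a ⊗ S b) ⊗ S c) :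
    h = ∑ x, sc hS d (h ≫ cotreeL hS F0 g a b c d x) • treeL g a b c d x := by
  have h1 : h = ∑ e, ∑ μ, (h ≫ (gaugeFrame hS F0 g a b).prj e μ ▷ S c) ≫
      (gaugeFrame hS F0 g a b).inc e μ ▷ S c := by
    have : h = h ≫ (∑ e, ∑ μ, (gaugeFrame hS F0 g a b).prj e μ ≫
        (gaugeFrame hS F0 g a b).inc e μ) ▷ S c := by
      rw [(gaugeFrame hS F0 g a b).total]; simp
    conv_lhs => rw [this]
    rw [sum_whiskerRight, Preadditive.comp_sum]
    refine Finset.sum_congr rfl fun e _ => ?_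
    rw [sum_whiskerRight, Preadditive.comp_sum]
    refine Finset.sum_congr rfl fun μ _ => ?_
    simp
  rw [Fintype.sum_sigma]
  conv_lhs => rw [h1]
  refine Finset.sum_congr rfl fun e _ => ?_
  rw [Fintype.sum_prod_type]
  refine Finset.sum_congr rfl fun μ _ => ?_
  conv_lhs => rw [frame_expand hS (gaugeFrame hS F0 g e c)
    (h ≫ (gaugeFrame hS F0 g a b).prj e μ ▷ S c)]
  rw [Preadditive.sum_comp]
  refine Finset.sum_congr rfl fun ν _ => ?_
  rw [Linear.smul_comp, Category.assoc]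
  rfl

lemma expandR (a b c d : Fin r) (h : S d ⟶ S a ⊗ (S b ⊗ S c)) :
    h = ∑ x, sc hS d (h ≫ cotreeR hS F0 g a b c d x) • treeR g a b c d x := by
  have h1 : h = ∑ e, ∑ μ, (h ≫ S a ◁ (gaugeFrame hS F0 g b c).prj e μ) ≫
      S a ◁ (gaugeFrame hS F0 g b c).inc e μ := by
    have : h = h ≫ S a ◁ (∑ e, ∑ μ, (gaugeFrame hS F0 g b c).prj e μ ≫
        (gaugeFrame hS F0 g b c).inc e μ) := by
      rw [(gaugeFrame hS F0 g b c).total]; simp
    conv_lhs => rw [this]
    rw [whiskerLeft_sum, Preadditive.comp_sum]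
    refine Finset.sum_congr rfl fun e _ => ?_
    rw [whiskerLeft_sum, Preadditive.comp_sum]
    refine Finset.sum_congr rfl fun μ _ => ?_
    simp
  rw [Fintype.sum_sigma]
  conv_lhs => rw [h1]
  refine Finset.sum_congr rfl fun e _ => ?_
  rw [Fintype.sum_prod_type]
  refine Finset.sum_congr rfl fun μ _ => ?_
  conv_lhs => rw [frame_expand hS (gaugeFrame hS F0 g a e)
    (h ≫ S a ◁ (gaugeFrame hS F0 g b c).prj e μ)]
  rw [Preadditive.sum_comp]
  refine Finset.sum_congr rfl fun ν _ => ?_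
  rw [Linear.smul_comp, Category.assoc]
  rfl

include hS F0 in
/-- Every gauge has F-matrices, and they are invertible. -/
lemma exists_FMatrix (a b c d : Fin r) :
    ∃ (M : Matrix (RIdx S a b c d) (LIdx S a b c d) ℂ)
      (M' : Matrix (LIdx S a b c d) (RIdx S a b c d) ℂ), IsFMatrix g a b c d M ∧ M * M' = 1 := by
  classical
  refine ⟨fun y x => sc hS d ((treeL g a b c d x ≫ (α_ (S a) (S b) (S c)).hom) ≫
      cotreeR hS F0 g a b c d y),
    fun x y => sc hS d ((treeR g a b c d y ≫ (α_ (S a) (S b) (S c)).inv) ≫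
      cotreeL hS F0 g a b c d x), fun x => expandR hS F0 g a b c d _, ?_⟩
  ext y y'
  rw [Matrix.mul_apply, Matrix.one_apply]
  have h1 := expandL hS F0 g a b c d (treeR g a b c d y' ≫ (α_ (S a) (S b) (S c)).inv)
  have h2 : treeR g a b c d y' = ∑ x, sc hS d ((treeR g a b c d y' ≫
      (α_ (S a) (S b) (S c)).inv) ≫ cotreeL hS F0 g a b c d x) •
      (treeL g a b c d x ≫ (α_ (S a) (S b) (S c)).hom) := by
    have : treeR g a b c d y' = (treeR g a b c d y' ≫ (α_ (S a) (S b) (S c)).inv) ≫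
      (α_ (S a) (S b) (S c)).hom := by simp
    conv_lhs => rw [this, h1, Preadditive.sum_comp]
    exact Finset.sum_congr rfl fun x _ => by rw [Linear.smul_comp]
  have h3 := congrArg (fun t => sc hS d (t ≫ cotreeR hS F0 g a b c d y)) h2
  rw [treeR_cotreeR, Preadditive.sum_comp, map_sum] at h3
  simp_rw [Linear.smul_comp, map_smul, smul_eq_mul] at h3
  have h4 : sc hS d (if y' = y then 𝟙 (S d) else 0) = if y = y' then 1 else 0 := by
    by_cases h : y = y'
    · subst h; simp
    · rw [if_neg h, if_neg (Ne.symm h), map_zero]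
  rw [← h4, h3]
  exact Finset.sum_congr rfl fun x _ => mul_comm _ _

end FM

section main

variable {C : Type u} [Category.{v} C] [Abelian C] [Linear ℂ C]
variable [MonoidalCategory C] [MonoidalPreadditive C] [MonoidalLinear ℂ C]
variable {D : Type w} [Category.{v} D] [Preadditive D] [Linear ℂ D] [MonoidalCategory D]
  [MonoidalPreadditive D] [MonoidalLinear ℂ D]
variable (F : D ⥤ C) [F.Monoidal] [F.Additive] [F.Linear ℂ] [F.IsEquivalence]
variable {r : ℕ} {S : Fin r → C} (s : Fin r → D) (e : ∀ i, F.obj (s i) ≅ S i)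

open Functor.OplaxMonoidal Functor.LaxMonoidal

/-- Transport of `Hom(s k, s i ⊗ s j)` to `C`. -/
noncomputable def Phi (i j k : Fin r) : (s k ⟶ s i ⊗ s j) ≃ₗ[ℂ] (S k ⟶ S i ⊗ S j) :=
  LinearEquiv.ofBijective
    { toFun := fun f => (e k).inv ≫ F.map f ≫ δ F (s i) (s j) ≫ ((e i).hom ⊗ₘ (e j).hom)
      map_add' := by intro f f'; simp
      map_smul' := by intro c f; simp }
    (by
      constructor
      · intro f f' h
        simp only [LinearMap.coe_mk, AddHom.coe_mk] at h
        have h2 := (cancel_epi (e k).inv).mp h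
        rw [← Category.assoc, ← Category.assoc] at h2
        have h3 := (cancel_mono ((e i).hom ⊗ₘ (e j).hom)).mp (by
          simpa only [Category.assoc] using h2 :
          (F.map f ≫ δ F (s i) (s j)) ≫ ((e i).hom ⊗ₘ (e j).hom) =
          (F.map f' ≫ δ F (s i) (s j)) ≫ ((e i).hom ⊗ₘ (e j).hom))
        have h4 := (cancel_mono (δ F (s i) (s j))).mp h3
        exact F.map_injective h4
      · intro f
        obtain ⟨f', hf'⟩ := F.map_surjective ((e k).hom ≫ f ≫ ((e i).inv ⊗ₘ (e j).inv) ≫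
          μ F (s i) (s j))
        refine ⟨f', ?_⟩
        simp only [LinearMap.coe_mk, AddHom.coe_mk]
        rw [hf']
        simp)

lemma Phi_apply (i j k : Fin r) (f : s k ⟶ s i ⊗ s j) :
    Phi F s e i j k f =
      (e k).inv ≫ F.map f ≫ δ F (s i) (s j) ≫ ((e i).hom ⊗ₘ (e j).hom) := rfl

/-- Transport of morphisms to a left bracketed triple product. -/
noncomputable def PsiL (a b c d : Fin r) (f : s d ⟶ (s a ⊗ s b) ⊗ s c) :
    S d ⟶ (S a ⊗ S b) ⊗ S c :=
  (e d).inv ≫ F.map f ≫ δ F (s a ⊗ s b) (s c) ≫ δ F (s a) (s b) ▷ F.obj (s c) ≫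
    (((e a).hom ⊗ₘ (e b).hom) ⊗ₘ (e c).hom)

/-- Transport of morphisms to a right bracketed triple product. -/
noncomputable def PsiR (a b c d : Fin r) (f : s d ⟶ s a ⊗ (s b ⊗ s c)) :
    S d ⟶ S a ⊗ (S b ⊗ S c) :=
  (e d).inv ≫ F.map f ≫ δ F (s a) (s b ⊗ s c) ≫ F.obj (s a) ◁ δ F (s b) (s c) ≫
    ((e a).hom ⊗ₘ ((e b).hom ⊗ₘ (e c).hom))

lemma PsiR_assoc (a b c d : Fin r) (f : s d ⟶ (s a ⊗ s b) ⊗ s c) :
    PsiR F s e a b c d (f ≫ (α_ (s a) (s b) (s c)).hom) =
      PsiL F s e a b c d f ≫ (α_ (S a) (S b) (S c)).hom := by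
  unfold PsiR PsiL
  simp only [Category.assoc]
  rw [MonoidalCategory.associator_naturality]
  congr 1
  rw [F.map_comp]
  simp only [Category.assoc]
  congr 1
  have := Functor.OplaxMonoidal.associativity F (s a) (s b) (s c)
  rw [reassoc_of% this]

lemma PsiR_injective (a b c d : Fin r) : Function.Injective (PsiR F s e a b c d) := by
  intro f f' h
  unfold PsiR at h
  have h2 := (cancel_epi (e d).inv).mp h
  have h3 := (cancel_mono (δ F (s a) (s b ⊗ s c) ≫ F.obj (s a) ◁ δ F (s b) (s c) ≫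
    ((e a).hom ⊗ₘ ((e b).hom ⊗ₘ (e c).hom)))).mp h2
  exact F.map_injective h3

lemma PsiR_sum (a b c d : Fin r) {ι : Type*} (t : Finset ι) (m : ι → ℂ)
    (f : ι → (s d ⟶ s a ⊗ (s b ⊗ s c))) :
    PsiR F s e a b c d (∑ i ∈ t, m i • f i) = ∑ i ∈ t, m i • PsiR F s e a b c d (f i) := by
  unfold PsiR
  rw [F.map_sum, Preadditive.sum_comp, Preadditive.comp_sum]
  refine Finset.sum_congr rfl fun i _ => ?_
  rw [F.map_smul, Linear.smul_comp, Linear.comp_smul]

lemma PsiL_tree (a b c d f : Fin r) (ν : s d ⟶ s f ⊗ s c) (m : s f ⟶ s a ⊗ s b) :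
    PsiL F s e a b c d (ν ≫ m ▷ s c) = Phi F s e f c d ν ≫ Phi F s e a b f m ▷ S c := by
  rw [Phi_apply, Phi_apply]
  unfold PsiL
  rw [F.map_comp]
  simp only [Category.assoc]
  congr 2
  rw [← δ_natural_left_assoc]
  congr 1
  have e1 : F.map m ▷ F.obj (s c) ≫ δ F (s a) (s b) ▷ F.obj (s c) ≫
      (((e a).hom ⊗ₘ (e b).hom) ⊗ₘ (e c).hom) =
      (F.map m ≫ δ F (s a) (s b) ≫ ((e a).hom ⊗ₘ (e b).hom)) ⊗ₘ (e c).hom := by
    rw [← tensorHom_id, ← tensorHom_id, MonoidalCategory.tensorHom_comp_tensorHom,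
      MonoidalCategory.tensorHom_comp_tensorHom, Category.id_comp, Category.id_comp]
  have e2 : ((e f).hom ⊗ₘ (e c).hom) ≫ ((e f).inv ≫ F.map m ≫ δ F (s a) (s b) ≫
      ((e a).hom ⊗ₘ (e b).hom)) ▷ S c =
      (F.map m ≫ δ F (s a) (s b) ≫ ((e a).hom ⊗ₘ (e b).hom)) ⊗ₘ (e c).hom := by
    rw [← tensorHom_id, MonoidalCategory.tensorHom_comp_tensorHom, Category.comp_id,
      Iso.hom_inv_id_assoc]
  rw [e1, e2]

lemma PsiR_tree (a b c d f : Fin r) (ν : s d ⟶ s a ⊗ s f) (m : s f ⟶ s b ⊗ s c) :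
    PsiR F s e a b c d (ν ≫ s a ◁ m) = Phi F s e a f d ν ≫ S a ◁ Phi F s e b c f m := by
  rw [Phi_apply, Phi_apply]
  unfold PsiR
  rw [F.map_comp]
  simp only [Category.assoc]
  congr 2
  rw [← δ_natural_right_assoc]
  congr 1
  have e1 : F.obj (s a) ◁ F.map m ≫ F.obj (s a) ◁ δ F (s b) (s c) ≫
      ((e a).hom ⊗ₘ ((e b).hom ⊗ₘ (e c).hom)) =
      (e a).hom ⊗ₘ (F.map m ≫ δ F (s b) (s c) ≫ ((e b).hom ⊗ₘ (e c).hom)) := by
    rw [← id_tensorHom, ← id_tensorHom, MonoidalCategory.tensorHom_comp_tensorHom,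
      MonoidalCategory.tensorHom_comp_tensorHom, Category.id_comp, Category.id_comp]
  have e2 : ((e a).hom ⊗ₘ (e f).hom) ≫ S a ◁ ((e f).inv ≫ F.map m ≫ δ F (s b) (s c) ≫
      ((e b).hom ⊗ₘ (e c).hom)) =
      (e a).hom ⊗ₘ (F.map m ≫ δ F (s b) (s c) ≫ ((e b).hom ⊗ₘ (e c).hom)) := by
    rw [← id_tensorHom, MonoidalCategory.tensorHom_comp_tensorHom, Category.comp_id,
      Iso.hom_inv_id_assoc]
  rw [e1, e2]

variable (A : CStarTensor D) (hS : IsSimpleList S)
variable [hfd : ∀ X Y : C, FiniteDimensional ℂ (X ⟶ Y)]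

include F e hS in
lemma isScalar_s (i : Fin r) : IsScalar (s i) where
  scalar f := by
    have h1 := sc_spec hS i ((e i).inv ≫ F.map f ≫ (e i).hom)
    refine ⟨sc hS i ((e i).inv ≫ F.map f ≫ (e i).hom), F.map_injective ?_⟩
    have h2 : F.map f = (e i).hom ≫ ((e i).inv ≫ F.map f ≫ (e i).hom) ≫ (e i).inv := by simp
    rw [h2, h1]
    simp
  id_ne := by
    intro h
    have := hS.simple i
    apply id_nonzero (S i)
    have h2 : F.map (𝟙 (s i)) = 0 := by rw [h, F.map_zero]
    rw [F.map_id] at h2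
    have h3 : 𝟙 (S i) = (e i).inv ≫ 𝟙 (F.obj (s i)) ≫ (e i).hom := by simp
    rw [h3, h2]
    simp

include F e hS in
lemma hom_zero_s {i j : Fin r} (h : i ≠ j) (f : s i ⟶ s j) : f = 0 := by
  apply F.map_injective
  rw [F.map_zero]
  have h1 : (e i).inv ≫ F.map f ≫ (e j).hom = 0 := hom_zero hS h _
  have h2 : F.map f = (e i).hom ≫ ((e i).inv ≫ F.map f ≫ (e j).hom) ≫ (e j).inv := by simp
  rw [h2, h1]
  simp

include F in
lemma finiteDimensional_hom_D (X Y : D) : FiniteDimensional ℂ (X ⟶ Y) := by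
  let φ : (X ⟶ Y) →ₗ[ℂ] (F.obj X ⟶ F.obj Y) :=
    { toFun := fun f => F.map f
      map_add' := by intro f g; simp
      map_smul' := by intro c f; simp }
  exact FiniteDimensional.of_injective φ (fun f g h => F.map_injective h)

include F e A hS in
/-- The converse for a fixed equivalence. -/
theorem exists_gauge (F0 : ∀ Z : C, Frame S Z) : ∃ g : Gauge S, HasUnitaryF g := by
  classical
  have hfdD : ∀ X Y : D, FiniteDimensional ℂ (X ⟶ Y) := finiteDimensional_hom_D F
  have hsc : ∀ i, IsScalar (s i) := isScalar_s F s e hS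
  choose B hB using fun i j k => exists_orthonormal A (hsc k) (s i ⊗ s j)
  have hrk : ∀ i j k, Module.finrank ℂ (s k ⟶ s i ⊗ s j) = mult S i j k := fun i j k =>
    (Phi F s e i j k).finrank_eq
  let g : Gauge S := fun i j k => ((B i j k).map (Phi F s e i j k)).reindex (finCongr (hrk i j k))
  -- the corresponding vectors in `D`
  let v : ∀ i j k, Fin (mult S i j k) → (s k ⟶ s i ⊗ s j) := fun i j k μ =>
    B i j k ((finCongr (hrk i j k)).symm μ)
  have hgv : ∀ i j k μ, g i j k μ = Phi F s e i j k (v i j k μ) := by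
    intro i j k μ
    simp only [g, v, Module.Basis.reindex_apply, Module.Basis.map_apply]
  have hv : ∀ i j k μ ν, v i j k μ ≫ A.dag (v i j k ν) = if μ = ν then 𝟙 (s k) else 0 := by
    intro i j k μ ν
    simp only [v, hB, EmbeddingLike.apply_eq_iff_eq]
  refine ⟨g, fun a b c d => ?_⟩
  obtain ⟨M, M', hM, hMM⟩ := exists_FMatrix hS F0 g a b c d
  -- trees in `D`
  let tL : LIdx S a b c d → (s d ⟶ (s a ⊗ s b) ⊗ s c) := fun x =>
    v x.1 c d x.2.2 ≫ v a b x.1 x.2.1 ▷ s c
  let tR : RIdx S a b c d → (s d ⟶ s a ⊗ (s b ⊗ s c)) := fun y =>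
    v a y.1 d y.2.2 ≫ s a ◁ v b c y.1 y.2.1
  have htL : ∀ x, PsiL F s e a b c d (tL x) = treeL g a b c d x := by
    intro x
    simp only [tL, PsiL_tree, treeL, hgv]
  have htR : ∀ y, PsiR F s e a b c d (tR y) = treeR g a b c d y := by
    intro y
    simp only [tR, PsiR_tree, treeR, hgv]
  have hL : ∀ x x', tL x ≫ A.dag (tL x') = if x = x' then 𝟙 (s d) else 0 := by
    rintro ⟨f, μ, ν⟩ ⟨f', μ', ν'⟩
    simp only [tL]
    rw [A.dag_comp, A.dag_whiskerRight, Category.assoc, ← comp_whiskerRight_assoc]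
    by_cases hf : f = f'
    · subst hf
      rw [hv]
      by_cases hμ : μ = μ'
      · subst hμ
        rw [if_pos rfl, id_whiskerRight, Category.id_comp, hv]
        simp only [Sigma.mk.injEq, heq_eq_eq, Prod.mk.injEq, true_and]
      · rw [if_neg hμ, if_neg]
        · simp
        · simp [hμ]
    · rw [hom_zero_s F s e hS hf (v a b f μ ≫ A.dag (v a b f' μ')), if_neg]
      · simp
      · intro h
        simp only [Sigma.mk.injEq] at h
        exact hf h.1
  have hR : ∀ x x', tR x ≫ A.dag (tR x') = if x = x' then 𝟙 (s d) else 0 := by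
    rintro ⟨f, μ, ν⟩ ⟨f', μ', ν'⟩
    simp only [tR]
    rw [A.dag_comp, A.dag_whiskerLeft, Category.assoc, ← MonoidalCategory.whiskerLeft_comp_assoc]
    by_cases hf : f = f'
    · subst hf
      rw [hv]
      by_cases hμ : μ = μ'
      · subst hμ
        rw [if_pos rfl, MonoidalCategory.whiskerLeft_id, Category.id_comp, hv]
        simp only [Sigma.mk.injEq, heq_eq_eq, Prod.mk.injEq, true_and]
      · rw [if_neg hμ, if_neg]
        · simp
        · simp [hμ]
    · rw [hom_zero_s F s e hS hf (v b c f μ ≫ A.dag (v b c f' μ')), if_neg]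
      · simp
      · intro h
        simp only [Sigma.mk.injEq] at h
        exact hf h.1
  have hMD : ∀ x, tL x ≫ (α_ (s a) (s b) (s c)).hom = ∑ y, M y x • tR y := by
    intro x
    apply PsiR_injective F s e a b c d
    rw [PsiR_assoc, PsiR_sum, htL, hM x]
    exact Finset.sum_congr rfl fun y _ => by rw [htR]
  have h1 : M.conjTranspose * M = 1 := by
    ext x' x
    rw [Matrix.mul_apply, Matrix.one_apply]
    simp only [Matrix.conjTranspose_apply]
    have h2 : (tL x ≫ (α_ (s a) (s b) (s c)).hom) ≫ A.dag (tL x' ≫ (α_ (s a) (s b) (s c)).hom) =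
        if x = x' then 𝟙 (s d) else 0 := by
      rw [A.dag_comp, A.dag_associator, Category.assoc, Iso.hom_inv_id_assoc, hL]
    rw [hMD, hMD, A.dag_sum, Preadditive.sum_comp] at h2
    have h3 : ∀ y, (M y x • tR y) ≫ (∑ y', A.dag (M y' x' • tR y')) =
        (M y x * star (M y x')) • 𝟙 (s d) := by
      intro y
      rw [Preadditive.comp_sum, Finset.sum_eq_single y]
      · rw [A.dag_smul, Linear.smul_comp, Linear.comp_smul, hR, if_pos rfl, smul_smul]
        rfl
      · intro y' _ hy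
        rw [A.dag_smul, Linear.smul_comp, Linear.comp_smul, hR, if_neg (Ne.symm hy)]
        simp
      · intro h; exact absurd (Finset.mem_univ _) h
    simp_rw [h3] at h2
    rw [← Finset.sum_smul] at h2
    have h4 : (∑ y, M y x * star (M y x')) = if x = x' then 1 else 0 := by
      apply smul_left_injective ℂ (hsc d).id_ne
      simp only
      rw [h2]
      split_ifs <;> simp
    rw [show (∑ y, star (M y x') * M y x) = ∑ y, M y x * star (M y x') from
      Finset.sum_congr rfl fun y _ => mul_comm _ _, h4]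
    by_cases hx : x = x'
    · subst hx; simp
    · rw [if_neg hx, if_neg (Ne.symm hx)]
  have h2 : M.conjTranspose = M' := by
    calc M.conjTranspose = M.conjTranspose * (M * M') := by rw [hMM, Matrix.mul_one]
      _ = M' := by rw [← Matrix.mul_assoc, h1, Matrix.one_mul]
  exact ⟨M, hM, h1, by rw [h2, hMM]⟩

end main

section final

variable {C : Type u} [Category.{v} C] [Abelian C] [Linear ℂ C]
variable [MonoidalCategory C] [MonoidalPreadditive C] [MonoidalLinear ℂ C] [RigidCategory C]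

theorem gauge_of_isUnitary (hC : IsFusionCategory C) {r : ℕ} {S : Fin r → C}
    (hS : IsSimpleList S) (h : IsUnitary.{w} C) : ∃ g : Gauge S, HasUnitaryF g := by
  have hfd : ∀ X Y : C, FiniteDimensional ℂ (X ⟶ Y) := hC.finiteDimensional_hom
  have dec : ∀ Z, Dec S Z := fun Z => (exists_dec hS hC.semisimple Z).some
  obtain ⟨D, _, _, _, _, _, _, A, F, _, _, hF1, hF2⟩ := h
  have h1 : ∀ i, ∃ X : D, Nonempty (F.obj X ≅ S i) := fun i =>
    ⟨F.objPreimage (S i), ⟨F.objObjPreimageIso (S i)⟩⟩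
  choose s hs using h1
  exact exists_gauge F s (fun i => (hs i).some) A hS (fun Z => frameOfDec (dec Z))

end final

end Pool.Agent.H60R2.UF
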