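import Pool.Agent.Helper781.Fusion.Defs

/-!
# Gauges, F-matrices and unitarity of fusion categories: definitions
-/

set_option autoImplicit false

open CategoryTheory CategoryTheory.Limits MonoidalCategory

namespace Pool.Agent.H60R2.UF

open Pool.Agent.Helper781.Fusion

universe w v u

section gauge

variable {C : Type u} [Category.{v} C] [Abelian C] [Linear ℂ C] [MonoidalCategory C]

/-- The multiplicity of `S c` in `S a ⊗ S b`, that is the dimension of `Hom(S c, S a ⊗ S b)`. -/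
noncomputable abbrev mult {n : ℕ} (S : Fin n → C) (a b c : Fin n) : ℕ :=
  Module.finrank ℂ (S c ⟶ S a ⊗ S b)

/-- A gauge for the representatives `S` of the simple objects: a basis of each of the spaces
`V^{ab}_c = Hom(c, a ⊗ b)`. -/
abbrev Gauge {n : ℕ} (S : Fin n → C) : Type v :=
  ∀ a b c : Fin n, Module.Basis (Fin (mult S a b c)) ℂ (S c ⟶ S a ⊗ S b)

variable {n : ℕ} {S : Fin n → C}

/-- Labels of the product basis of `⊕_e V^{ab}_e ⊗ V^{ec}_d`. -/
abbrev LIdx (S : Fin n → C) (a b c d : Fin n) : Type :=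
  Σ e : Fin n, Fin (mult S a b e) × Fin (mult S e c d)

/-- Labels of the product basis of `⊕_f V^{bc}_f ⊗ V^{af}_d`. -/
abbrev RIdx (S : Fin n → C) (a b c d : Fin n) : Type :=
  Σ f : Fin n, Fin (mult S b c f) × Fin (mult S a f d)

/-- The image in `Hom(d, (a ⊗ b) ⊗ c)` of a vector of the product basis of
`⊕_e V^{ab}_e ⊗ V^{ec}_d`. -/
noncomputable def treeL (g : Gauge S) (a b c d : Fin n) (x : LIdx S a b c d) :
    S d ⟶ (S a ⊗ S b) ⊗ S c :=
  g x.1 c d x.2.2 ≫ g a b x.1 x.2.1 ▷ S c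

/-- The image in `Hom(d, a ⊗ (b ⊗ c))` of a vector of the product basis of
`⊕_f V^{bc}_f ⊗ V^{af}_d`. -/
noncomputable def treeR (g : Gauge S) (a b c d : Fin n) (y : RIdx S a b c d) :
    S d ⟶ S a ⊗ (S b ⊗ S c) :=
  g a y.1 d y.2.2 ≫ S a ◁ g b c y.1 y.2.1

/-- `M` is the F-matrix `F^{abc}_d` in the gauge `g`: the matrix, in the product bases, of the map
`⊕_e V^{ab}_e ⊗ V^{ec}_d → ⊕_f V^{bc}_f ⊗ V^{af}_d` induced by the associator. -/
def IsFMatrix (g : Gauge S) (a b c d : Fin n)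
    (M : Matrix (RIdx S a b c d) (LIdx S a b c d) ℂ) : Prop :=
  ∀ x, treeL g a b c d x ≫ (α_ (S a) (S b) (S c)).hom = ∑ y, M y x • treeR g a b c d y

/-- All F-matrices are unitary in the gauge `g`. -/
def HasUnitaryF (g : Gauge S) : Prop :=
  ∀ a b c d : Fin n, ∃ M : Matrix (RIdx S a b c d) (LIdx S a b c d) ℂ,
    IsFMatrix g a b c d M ∧ M.conjTranspose * M = 1 ∧ M * M.conjTranspose = 1

end gauge

/-- A C*-tensor structure on a `ℂ`-linear monoidal category: a conjugate linear involution `dag`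
reversing composition and complete norms on the Hom spaces which satisfy the axioms of a
C*-category, such that `dag` is compatible with the tensor product of morphisms and the
associativity and unit constraints are unitary. -/
structure CStarTensor (D : Type w) [Category.{v} D] [Preadditive D] [Linear ℂ D]
    [MonoidalCategory D] where
  /-- The involution. -/
  dag : ∀ {X Y : D}, (X ⟶ Y) → (Y ⟶ X)
  /-- The norm. -/
  nrm : ∀ {X Y : D}, (X ⟶ Y) → ℝ
  dag_dag : ∀ {X Y : D} (f : X ⟶ Y), dag (dag f) = f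
  dag_comp : ∀ {X Y Z : D} (f : X ⟶ Y) (g : Y ⟶ Z), dag (f ≫ g) = dag g ≫ dag f
  dag_add : ∀ {X Y : D} (f g : X ⟶ Y), dag (f + g) = dag f + dag g
  dag_smul : ∀ {X Y : D} (c : ℂ) (f : X ⟶ Y), dag (c • f) = (starRingEnd ℂ c) • dag f
  eq_zero_of_nrm : ∀ {X Y : D} (f : X ⟶ Y), nrm f = 0 → f = 0
  nrm_add_le : ∀ {X Y : D} (f g : X ⟶ Y), nrm (f + g) ≤ nrm f + nrm g
  nrm_smul : ∀ {X Y : D} (c : ℂ) (f : X ⟶ Y), nrm (c • f) = ‖c‖ * nrm f
  nrm_comp_le : ∀ {X Y Z : D} (f : X ⟶ Y) (g : Y ⟶ Z), nrm (f ≫ g) ≤ nrm f * nrm g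
  /-- The C*-identity. -/
  nrm_comp_dag : ∀ {X Y : D} (f : X ⟶ Y), nrm (f ≫ dag f) = nrm f ^ 2
  /-- Hom spaces are complete. -/
  complete : ∀ {X Y : D} (F : ℕ → (X ⟶ Y)),
    (∀ ε : ℝ, 0 < ε → ∃ N : ℕ, ∀ m k : ℕ, N ≤ m → N ≤ k → nrm (F m - F k) < ε) →
    ∃ f : X ⟶ Y, ∀ ε : ℝ, 0 < ε → ∃ N : ℕ, ∀ m : ℕ, N ≤ m → nrm (F m - f) < ε
  /-- `dag f` after `f` is a positive element of `End X`. -/
  positive : ∀ {X Y : D} (f : X ⟶ Y), ∃ g : X ⟶ X, f ≫ dag f = g ≫ dag g
  dag_tensor : ∀ {X Y X' Y' : D} (f : X ⟶ Y) (g : X' ⟶ Y'),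
    dag (f ⊗ₘ g) = dag f ⊗ₘ dag g
  dag_associator : ∀ X Y Z : D, dag (α_ X Y Z).hom = (α_ X Y Z).inv
  dag_leftUnitor : ∀ X : D, dag (λ_ X).hom = (λ_ X).inv
  dag_rightUnitor : ∀ X : D, dag (ρ_ X).hom = (ρ_ X).inv

/-- The category `C` is unitary: it is `ℂ`-linearly monoidally equivalent to a category `D`
with a C*-tensor structure. -/
def IsUnitary (C : Type u) [Category.{v} C] [Preadditive C] [Linear ℂ C]
    [MonoidalCategory C] : Prop :=
  ∃ (D : Type w) (_ : Category.{v} D) (_ : Preadditive D) (_ : Linear ℂ D)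
    (_ : MonoidalCategory D) (_ : MonoidalPreadditive D) (_ : MonoidalLinear ℂ D)
    (_ : CStarTensor D) (F : D ⥤ C) (_ : F.Monoidal) (_ : F.Additive),
    F.Linear ℂ ∧ F.IsEquivalence

/-- The braided category `C` is unitary: it is `ℂ`-linearly braided monoidally equivalent to a
braided category `D` with a C*-tensor structure for which the braiding is unitary. -/
def IsUnitaryBraided (C : Type u) [Category.{v} C] [Preadditive C] [Linear ℂ C]
    [MonoidalCategory C] [BraidedCategory C] : Prop :=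
  ∃ (D : Type w) (_ : Category.{v} D) (_ : Preadditive D) (_ : Linear ℂ D)
    (_ : MonoidalCategory D) (_ : MonoidalPreadditive D) (_ : MonoidalLinear ℂ D)
    (_ : BraidedCategory D) (A : CStarTensor D) (F : D ⥤ C) (_ : F.Braided) (_ : F.Additive),
    (∀ X Y : D, A.dag (β_ X Y).hom = (β_ X Y).inv) ∧ F.Linear ℂ ∧ F.IsEquivalence

end Pool.Agent.H60R2.UF
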