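import Pool.Agent.Helper781.Fusion.Decomp
import Pool.Agent.H60R2.UF.Defs

/-!
# Frames: orthonormal decompositions of objects of a semisimple category
-/

set_option autoImplicit false
set_option linter.unusedSectionVars false

open CategoryTheory CategoryTheory.Limits MonoidalCategory

namespace Pool.Agent.H60R2.UF

open Pool.Agent.Helper781.Fusion

universe w v u

variable {C : Type u} [Category.{v} C] [Abelian C] [Linear ℂ C]

/-- A frame on `X`: a decomposition of `X` as direct sum of members of the list `S`. -/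
structure Frame {r : ℕ} (S : Fin r → C) (X : C) where
  J : Fin r → Type
  [fin : ∀ i, Fintype (J i)]
  inc : ∀ i, J i → (S i ⟶ X)
  prj : ∀ i, J i → (X ⟶ S i)
  same : ∀ i a, inc i a ≫ prj i a = 𝟙 (S i)
  diff : ∀ i a b, a ≠ b → inc i a ≫ prj i b = 0
  total : ∑ i, ∑ a, prj i a ≫ inc i a = 𝟙 X

attribute [instance] Frame.fin

variable {r : ℕ} {S : Fin r → C} (hS : IsSimpleList S) [hfd : ∀ X Y : C, FiniteDimensional ℂ (X ⟶ Y)]

/-- The scalar of an endomorphism of a simple object of the list. -/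
noncomputable def sc (i : Fin r) : (S i ⟶ S i) →ₗ[ℂ] ℂ :=
  haveI := hS.simple i
  (exists_scalar (S i)).choose

lemma sc_spec (i : Fin r) (f : S i ⟶ S i) : f = sc hS i f • 𝟙 (S i) := by
  have := hS.simple i
  exact (exists_scalar (S i)).choose_spec.1 f

@[simp] lemma sc_one (i : Fin r) : sc hS i (𝟙 (S i)) = 1 := by
  have := hS.simple i
  exact (exists_scalar (S i)).choose_spec.2

lemma sc_comp (i : Fin r) (f g : S i ⟶ S i) : sc hS i (f ≫ g) = sc hS i f * sc hS i g := by
  conv_lhs => rw [sc_spec hS i f, Linear.smul_comp, Category.id_comp, map_smul, smul_eq_mul]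

lemma sc_smul_one (i : Fin r) (c : ℂ) : sc hS i (c • 𝟙 (S i)) = c := by
  rw [map_smul, sc_one, smul_eq_mul, mul_one]

lemma sc_inj (i : Fin r) {f g : S i ⟶ S i} (h : sc hS i f = sc hS i g) : f = g := by
  rw [sc_spec hS i f, h, ← sc_spec hS i g]

open Classical in
lemma Frame.orth {X : C} (F : Frame S X) (i : Fin r) (a b : F.J i) :
    F.inc i a ≫ F.prj i b = if a = b then 𝟙 (S i) else 0 := by
  split_ifs with h
  · subst h; exact F.same i a
  · exact F.diff i a b h

/-- The matrix of a morphism in frames. -/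
noncomputable def mat {X Y : C} (FX : Frame S X) (FY : Frame S Y) (f : X ⟶ Y) (i : Fin r) :
    Matrix (FX.J i) (FY.J i) ℂ :=
  fun a b => sc hS i (FX.inc i a ≫ f ≫ FY.prj i b)

section

variable {X Y Z W : C} (FX : Frame S X) (FY : Frame S Y) (FZ : Frame S Z) (FW : Frame S W)

lemma mat_apply (f : X ⟶ Y) (i : Fin r) (a : FX.J i) (b : FY.J i) :
    mat hS FX FY f i a b = sc hS i (FX.inc i a ≫ f ≫ FY.prj i b) := rfl

lemma inc_comp_prj (f : X ⟶ Y) (i : Fin r) (a : FX.J i) (b : FY.J i) :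
    FX.inc i a ≫ f ≫ FY.prj i b = mat hS FX FY f i a b • 𝟙 (S i) :=
  sc_spec hS i _

lemma expand (f : X ⟶ Y) : f = ∑ i, ∑ a, ∑ b, mat hS FX FY f i a b •
    (FX.prj i a ≫ FY.inc i b) := by
  have h : f = (∑ i, ∑ a, FX.prj i a ≫ FX.inc i a) ≫ f ≫ (∑ j, ∑ b, FY.prj j b ≫ FY.inc j b) := by
    rw [FX.total, FY.total]; simp
  conv_lhs => rw [h]
  rw [Preadditive.sum_comp]
  refine Finset.sum_congr rfl fun i _ => ?_
  rw [Preadditive.sum_comp]
  refine Finset.sum_congr rfl fun a _ => ?_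
  rw [Preadditive.comp_sum, Preadditive.comp_sum, Finset.sum_eq_single i]
  · rw [Preadditive.comp_sum, Preadditive.comp_sum]
    refine Finset.sum_congr rfl fun b _ => ?_
    have e : (FX.prj i a ≫ FX.inc i a) ≫ f ≫ FY.prj i b ≫ FY.inc i b =
        FX.prj i a ≫ (FX.inc i a ≫ f ≫ FY.prj i b) ≫ FY.inc i b := by
      simp only [Category.assoc]
    rw [e, inc_comp_prj hS FX FY f i a b]
    simp
  · intro j _ hj
    rw [Preadditive.comp_sum, Preadditive.comp_sum]
    refine Finset.sum_eq_zero fun b _ => ?_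
    have e : (FX.prj i a ≫ FX.inc i a) ≫ f ≫ FY.prj j b ≫ FY.inc j b =
        FX.prj i a ≫ (FX.inc i a ≫ f ≫ FY.prj j b) ≫ FY.inc j b := by
      simp only [Category.assoc]
    rw [e, hom_zero hS (Ne.symm hj) (FX.inc i a ≫ f ≫ FY.prj j b)]
    simp
  · intro h; exact absurd (Finset.mem_univ _) h

/-- The morphism with given matrices. -/
noncomputable def ofMat (M : ∀ i, Matrix (FX.J i) (FY.J i) ℂ) : X ⟶ Y :=
  ∑ i, ∑ a, ∑ b, M i a b • (FX.prj i a ≫ FY.inc i b)

include hS in
lemma inc_prj_ne (i j : Fin r) (h : i ≠ j) (a : FX.J i) (b : FX.J j) :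
    FX.inc i a ≫ FX.prj j b = 0 := hom_zero hS h _

lemma mat_ofMat (M : ∀ i, Matrix (FX.J i) (FY.J i) ℂ) (i : Fin r) :
    mat hS FX FY (ofMat FX FY M) i = M i := by
  classical
  ext a b
  rw [mat_apply, ofMat, Preadditive.sum_comp, Preadditive.comp_sum, map_sum,
    Finset.sum_eq_single i]
  · rw [Preadditive.sum_comp, Preadditive.comp_sum, map_sum, Finset.sum_eq_single a]
    · rw [Preadditive.sum_comp, Preadditive.comp_sum, map_sum, Finset.sum_eq_single b]
      · simp only [Linear.smul_comp, Linear.comp_smul, Category.assoc, FY.same, Category.comp_id,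
          FX.same, map_smul, sc_one, smul_eq_mul, mul_one]
      · intro b' _ hb
        simp [FY.diff i b' b hb]
      · intro h; exact absurd (Finset.mem_univ _) h
    · intro a' _ ha
      rw [Preadditive.sum_comp, Preadditive.comp_sum, map_sum]
      refine Finset.sum_eq_zero fun b' _ => ?_
      rw [Linear.smul_comp, Linear.comp_smul, Category.assoc, ← Category.assoc (FX.inc i a),
        FX.diff i a a' (Ne.symm ha)]
      simp
    · intro h; exact absurd (Finset.mem_univ _) h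
  · intro j _ hj
    rw [Preadditive.sum_comp, Preadditive.comp_sum, map_sum]
    refine Finset.sum_eq_zero fun a' _ => ?_
    rw [Preadditive.sum_comp, Preadditive.comp_sum, map_sum]
    refine Finset.sum_eq_zero fun b' _ => ?_
    rw [Linear.smul_comp, Linear.comp_smul, Category.assoc, ← Category.assoc (FX.inc i a),
      inc_prj_ne hS FX i j (Ne.symm hj)]
    simp
  · intro h; exact absurd (Finset.mem_univ _) h

lemma ofMat_mat (f : X ⟶ Y) : ofMat FX FY (mat hS FX FY f) = f :=
  (expand hS FX FY f).symm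

lemma mat_ext {f g : X ⟶ Y} (h : ∀ i a b, mat hS FX FY f i a b = mat hS FX FY g i a b) :
    f = g := by
  rw [← ofMat_mat hS FX FY f, ← ofMat_mat hS FX FY g]
  congr 1
  funext i
  ext a b
  exact h i a b

open Classical in
lemma mat_id (i : Fin r) : mat hS FX FX (𝟙 X) i = 1 := by
  ext a b
  rw [mat_apply, Category.id_comp, FX.orth, Matrix.one_apply]
  split_ifs <;> simp

lemma mat_comp (f : X ⟶ Y) (g : Y ⟶ Z) (i : Fin r) :
    mat hS FX FZ (f ≫ g) i = mat hS FX FY f i * mat hS FY FZ g i := by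
  ext a c
  rw [Matrix.mul_apply, mat_apply]
  have h : FX.inc i a ≫ (f ≫ g) ≫ FZ.prj i c =
      FX.inc i a ≫ f ≫ (∑ j, ∑ b, FY.prj j b ≫ FY.inc j b) ≫ g ≫ FZ.prj i c := by
    rw [FY.total]; simp
  rw [h, Preadditive.sum_comp, Preadditive.comp_sum, Preadditive.comp_sum, map_sum,
    Finset.sum_eq_single i]
  · rw [Preadditive.sum_comp, Preadditive.comp_sum, Preadditive.comp_sum, map_sum]
    refine Finset.sum_congr rfl fun b _ => ?_
    have e : FX.inc i a ≫ f ≫ (FY.prj i b ≫ FY.inc i b) ≫ g ≫ FZ.prj i c =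
        (FX.inc i a ≫ f ≫ FY.prj i b) ≫ (FY.inc i b ≫ g ≫ FZ.prj i c) := by
      simp only [Category.assoc]
    rw [e, sc_comp]
    rfl
  · intro j _ hj
    rw [Preadditive.sum_comp, Preadditive.comp_sum, Preadditive.comp_sum, map_sum]
    refine Finset.sum_eq_zero fun b _ => ?_
    have e : FX.inc i a ≫ f ≫ (FY.prj j b ≫ FY.inc j b) ≫ g ≫ FZ.prj i c =
        (FX.inc i a ≫ f ≫ FY.prj j b) ≫ (FY.inc j b ≫ g ≫ FZ.prj i c) := by
      simp only [Category.assoc]
    rw [e, hom_zero hS (Ne.symm hj) (FX.inc i a ≫ f ≫ FY.prj j b)]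
    simp
  · intro h; exact absurd (Finset.mem_univ _) h

lemma mat_add (f g : X ⟶ Y) (i : Fin r) :
    mat hS FX FY (f + g) i = mat hS FX FY f i + mat hS FX FY g i := by
  ext a b
  simp [mat_apply]

lemma mat_sub (f g : X ⟶ Y) (i : Fin r) :
    mat hS FX FY (f - g) i = mat hS FX FY f i - mat hS FX FY g i := by
  ext a b
  simp [mat_apply]

lemma mat_smul (c : ℂ) (f : X ⟶ Y) (i : Fin r) :
    mat hS FX FY (c • f) i = c • mat hS FX FY f i := by
  ext a b
  simp [mat_apply]

/-- The adjoint of a morphism with respect to frames. -/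
noncomputable def dagF (f : X ⟶ Y) : Y ⟶ X :=
  ofMat FY FX (fun i => (mat hS FX FY f i).conjTranspose)

lemma mat_dagF (f : X ⟶ Y) (i : Fin r) :
    mat hS FY FX (dagF hS FX FY f) i = (mat hS FX FY f i).conjTranspose :=
  mat_ofMat hS FY FX _ i

lemma mat_dagF_apply (f : X ⟶ Y) (i : Fin r) (a : FX.J i) (b : FY.J i) :
    mat hS FY FX (dagF hS FX FY f) i b a = (starRingEnd ℂ) (mat hS FX FY f i a b) := by
  rw [mat_dagF]
  rfl

lemma dagF_dagF (f : X ⟶ Y) : dagF hS FY FX (dagF hS FX FY f) = f := by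
  refine mat_ext hS FX FY fun i a b => ?_
  rw [mat_dagF, mat_dagF, Matrix.conjTranspose_conjTranspose]

lemma dagF_comp (f : X ⟶ Y) (g : Y ⟶ Z) :
    dagF hS FX FZ (f ≫ g) = dagF hS FY FZ g ≫ dagF hS FX FY f := by
  refine mat_ext hS FZ FX fun i a b => ?_
  rw [mat_dagF, mat_comp hS FX FY FZ, mat_comp hS FZ FY FX, mat_dagF, mat_dagF,
    Matrix.conjTranspose_mul]

lemma dagF_add (f g : X ⟶ Y) :
    dagF hS FX FY (f + g) = dagF hS FX FY f + dagF hS FX FY g := by
  refine mat_ext hS FY FX fun i a b => ?_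
  rw [mat_dagF, mat_add, mat_add, mat_dagF, mat_dagF, Matrix.conjTranspose_add]

lemma dagF_smul (c : ℂ) (f : X ⟶ Y) :
    dagF hS FX FY (c • f) = (starRingEnd ℂ c) • dagF hS FX FY f := by
  refine mat_ext hS FY FX fun i a b => ?_
  rw [mat_dagF, mat_smul, mat_smul, mat_dagF, Matrix.conjTranspose_smul]
  rfl

/-- Criterion for the adjoint of an isomorphism to be its inverse. -/
lemma dagF_eq_of_mat (f : X ⟶ Y) (g : Y ⟶ X)
    (h : ∀ i a b, mat hS FY FX g i b a = (starRingEnd ℂ) (mat hS FX FY f i a b)) :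
    dagF hS FX FY f = g := by
  refine mat_ext hS FY FX fun i b a => ?_
  rw [mat_dagF_apply, h]

end

end Pool.Agent.H60R2.UF
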