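import Pool.Agent.H60R2.UF.Defs

/-!
# Half-braidings in C*-tensor categories are unitary
-/

set_option autoImplicit false
set_option linter.unusedSectionVars false

open CategoryTheory CategoryTheory.Limits MonoidalCategory

namespace Pool.Agent.H60R2.UF

universe w v u

variable {D : Type w} [Category.{v} D] [Preadditive D] [Linear ℂ D] [MonoidalCategory D]

namespace CStarTensor

variable (A : CStarTensor D)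

lemma dag_id (X : D) : A.dag (𝟙 X) = 𝟙 X := by
  have h := A.dag_comp (A.dag (𝟙 X)) (𝟙 X)
  rw [Category.comp_id, A.dag_dag, Category.comp_id] at h
  exact h.symm

lemma dag_zero (X Y : D) : A.dag (0 : X ⟶ Y) = 0 := by
  have h := A.dag_add (0 : X ⟶ Y) 0
  rw [add_zero] at h
  have h2 := sub_eq_zero.mpr h
  simpa using h2

lemma dag_neg {X Y : D} (f : X ⟶ Y) : A.dag (-f) = -A.dag f := by
  have h := A.dag_add f (-f)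
  rw [add_neg_cancel, A.dag_zero] at h
  exact (neg_eq_of_add_eq_zero_right h.symm).symm

lemma dag_sub {X Y : D} (f g : X ⟶ Y) : A.dag (f - g) = A.dag f - A.dag g := by
  rw [sub_eq_add_neg, A.dag_add, A.dag_neg, sub_eq_add_neg]

lemma dag_sum {X Y : D} {ι : Type*} (s : Finset ι) (f : ι → (X ⟶ Y)) :
    A.dag (∑ i ∈ s, f i) = ∑ i ∈ s, A.dag (f i) := by
  classical
  induction s using Finset.induction_on with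
  | empty => simp [A.dag_zero]
  | insert a s ha ih => rw [Finset.sum_insert ha, Finset.sum_insert ha, A.dag_add, ih]

lemma dag_whiskerLeft (X : D) {Y Z : D} (f : Y ⟶ Z) : A.dag (X ◁ f) = X ◁ A.dag f := by
  rw [← id_tensorHom, A.dag_tensor, A.dag_id, id_tensorHom]

lemma dag_whiskerRight {Y Z : D} (f : Y ⟶ Z) (X : D) : A.dag (f ▷ X) = A.dag f ▷ X := by
  rw [← tensorHom_id, A.dag_tensor, A.dag_id, tensorHom_id]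

lemma dag_associator_inv (X Y Z : D) : A.dag (α_ X Y Z).inv = (α_ X Y Z).hom := by
  rw [← A.dag_associator, A.dag_dag]

lemma dag_rightUnitor_inv (X : D) : A.dag (ρ_ X).inv = (ρ_ X).hom := by
  rw [← A.dag_rightUnitor, A.dag_dag]

lemma dag_leftUnitor_inv (X : D) : A.dag (λ_ X).inv = (λ_ X).hom := by
  rw [← A.dag_leftUnitor, A.dag_dag]

end CStarTensor

/-- All endomorphisms of the nonzero object `X` are scalars. -/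
structure IsScalar (X : D) : Prop where
  scalar : ∀ f : X ⟶ X, ∃ c : ℂ, f = c • 𝟙 X
  id_ne : 𝟙 X ≠ 0

namespace CStarTensor

variable (A : CStarTensor D)

lemma nrm_nonneg {X Y : D} (f : X ⟶ Y) : 0 ≤ A.nrm f := by
  have h0 : A.nrm (0 : X ⟶ Y) = 0 := by
    have := A.nrm_smul (0 : ℂ) (0 : X ⟶ Y)
    simpa using this
  have h1 := A.nrm_add_le f ((-1 : ℂ) • f)
  have h2 : f + (-1 : ℂ) • f = 0 := by simp
  rw [h2, h0, A.nrm_smul] at h1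
  simp only [norm_neg, norm_one, one_mul] at h1
  linarith

lemma nrm_id {X : D} (hX : IsScalar X) : A.nrm (𝟙 X) = 1 := by
  have h := A.nrm_comp_dag (𝟙 X)
  rw [A.dag_id, Category.comp_id] at h
  have h2 : A.nrm (𝟙 X) ≠ 0 := fun h0 => hX.id_ne (A.eq_zero_of_nrm _ h0)
  have h3 : A.nrm (𝟙 X) * (A.nrm (𝟙 X) - 1) = 0 := by
    rw [sq] at h
    linarith
  rcases mul_eq_zero.mp h3 with h4 | h4
  · exact absurd h4 h2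
  · linarith

lemma comp_dag_eq {X Y : D} (hX : IsScalar X) (f : X ⟶ Y) :
    f ≫ A.dag f = ((A.nrm f ^ 2 : ℝ) : ℂ) • 𝟙 X := by
  obtain ⟨g, hg⟩ := A.positive f
  obtain ⟨c, hc⟩ := hX.scalar g
  have h1 : f ≫ A.dag f = ((‖c‖ ^ 2 : ℝ) : ℂ) • 𝟙 X := by
    rw [hg, hc, A.dag_smul, A.dag_id, Linear.smul_comp, Linear.comp_smul, smul_smul,
      Category.comp_id, Complex.mul_conj, Complex.normSq_eq_norm_sq]
  have h2 : A.nrm f ^ 2 = ‖c‖ ^ 2 := by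
    rw [← A.nrm_comp_dag, h1, A.nrm_smul, A.nrm_id hX, mul_one, Complex.norm_real,
      Real.norm_of_nonneg (by positivity)]
  rw [h1, h2]

lemma nrm_sq_of_comp_dag {X Y : D} (hX : IsScalar X) (f : X ⟶ Y) (t : ℝ)
    (h : f ≫ A.dag f = ((t : ℝ) : ℂ) • 𝟙 X) : A.nrm f ^ 2 = t := by
  rw [A.comp_dag_eq hX f] at h
  have h2 : ((A.nrm f ^ 2 : ℝ) : ℂ) = (t : ℂ) := smul_left_injective ℂ hX.id_ne h
  exact_mod_cast h2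

end CStarTensor

variable [MonoidalPreadditive D] [MonoidalLinear ℂ D]

/-- `V R U : X ⟶ W ⊗ Z'` for `R : 𝟙_ ⟶ Z ⊗ Z'` and `U : X ⊗ Z ⟶ W`. -/
def VV {X Z Z' W : D} (R : 𝟙_ D ⟶ Z ⊗ Z') (U : X ⊗ Z ⟶ W) : X ⟶ W ⊗ Z' :=
  (ρ_ X).inv ≫ X ◁ R ≫ (α_ X Z Z').inv ≫ U ▷ Z'

lemma VV_comp {X Z Z' W W' : D} (R : 𝟙_ D ⟶ Z ⊗ Z') (U : X ⊗ Z ⟶ W) (f : W ⟶ W') :
    VV R (U ≫ f) = VV R U ≫ f ▷ Z' := by
  simp [VV]

lemma VV_pre {X Z Z' Y W : D} (R : 𝟙_ D ⟶ Z ⊗ Z') (f : Z ⟶ Y) (U : X ⊗ Y ⟶ W) :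
    VV R (X ◁ f ≫ U) = VV (R ≫ f ▷ Z') U := by
  simp [VV]

lemma VV_post {X Z Z' Z'' W : D} (R : 𝟙_ D ⟶ Z ⊗ Z') (g : Z' ⟶ Z'') (U : X ⊗ Z ⟶ W) :
    VV (R ≫ Z ◁ g) U = VV R U ≫ W ◁ g := by
  simp only [VV, MonoidalCategory.whiskerLeft_comp, Category.assoc]
  rw [← whisker_exchange, ← associator_inv_naturality_right_assoc]

lemma VV_sum {X Z Z' W : D} (R : 𝟙_ D ⟶ Z ⊗ Z') {ι : Type*} (s : Finset ι)
    (U : ι → (X ⊗ Z ⟶ W)) : VV R (∑ i ∈ s, U i) = ∑ i ∈ s, VV R (U i) := by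
  simp only [VV, sum_whiskerRight, Preadditive.comp_sum]

lemma VV_sub {X Z Z' W : D} (R : 𝟙_ D ⟶ Z ⊗ Z') (U U' : X ⊗ Z ⟶ W) :
    VV R (U - U') = VV R U - VV R U' := by
  have h : (U - U') ▷ Z' = U ▷ Z' - U' ▷ Z' := by
    have := (tensorRight Z').map_sub (f := U) (g := U')
    exact this
  simp only [VV, h, Preadditive.comp_sub]

/-- The nested coevaluation. -/
def nest {Y Y' Z Z' : D} (RY : 𝟙_ D ⟶ Y ⊗ Y') (RZ : 𝟙_ D ⟶ Z ⊗ Z') :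
    𝟙_ D ⟶ (Y ⊗ Z) ⊗ (Z' ⊗ Y') :=
  RY ≫ Y ◁ ((λ_ Y').inv ≫ RZ ▷ Y' ≫ (α_ Z Z' Y').hom) ≫ (α_ Y Z (Z' ⊗ Y')).inv

/-- The coherence isomorphism. -/
def coh (X Y Y' Z Z' : D) : (Y ⊗ ((Z ⊗ X) ⊗ Z')) ⊗ Y' ⟶ ((Y ⊗ Z) ⊗ X) ⊗ (Z' ⊗ Y') :=
  (α_ Y (Z ⊗ X) Z').inv ▷ Y' ≫ ((α_ Y Z X).inv ▷ Z') ▷ Y' ≫ (α_ ((Y ⊗ Z) ⊗ X) Z' Y').hom

lemma VV_nest {X Y Y' Z Z' : D} (b : HalfBraiding X) (RY : 𝟙_ D ⟶ Y ⊗ Y')
    (RZ : 𝟙_ D ⟶ Z ⊗ Z') :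
    VV (nest RY RZ) (b.β (Y ⊗ Z)).hom =
      VV RY (b.β Y).hom ≫ (Y ◁ VV RZ (b.β Z).hom) ▷ Y' ≫ coh X Y Y' Z Z' := by
  rw [b.monoidal]
  calc VV (nest RY RZ) ((α_ X Y Z).inv ≫ (b.β Y).hom ▷ Z ≫ (α_ Y X Z).hom ≫
        Y ◁ (b.β Z).hom ≫ (α_ Y Z X).inv)
      = 𝟙 X ⊗≫ X ◁ RY ⊗≫ ((X ⊗ Y) ◁ RZ ≫ (b.β Y).hom ▷ (Z ⊗ Z')) ▷ Y' ⊗≫
        (Y ◁ (b.β Z).hom) ▷ (Z' ⊗ Y') ⊗≫ 𝟙 _ := by
        unfold VV nest
        monoidal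
    _ = 𝟙 X ⊗≫ X ◁ RY ⊗≫ ((b.β Y).hom ▷ (𝟙_ D) ≫ (Y ⊗ X) ◁ RZ) ▷ Y' ⊗≫
        (Y ◁ (b.β Z).hom) ▷ (Z' ⊗ Y') ⊗≫ 𝟙 _ := by
        rw [whisker_exchange]
    _ = _ := by
        unfold VV coh
        monoidal

end Pool.Agent.H60R2.UF
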