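import Pool.Agent.H60R2.UF.UnitChoice

/-!
# The C*-tensor category of framed objects
-/

set_option autoImplicit false
set_option linter.unusedSectionVars false

open CategoryTheory CategoryTheory.Limits MonoidalCategory

namespace Pool.Agent.H60R2.UF

open Pool.Agent.Helper781.Fusion

universe w v u

variable {C : Type u} [Category.{v} C] [Abelian C] [Linear ℂ C]
variable {r : ℕ} {S : Fin r → C} (hS : IsSimpleList S) [hfd : ∀ X Y : C, FiniteDimensional ℂ (X ⟶ Y)]
variable [MonoidalCategory C] [MonoidalPreadditive C] [MonoidalLinear ℂ C]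
variable (G : ∀ a b : Fin r, Frame S (S a ⊗ S b)) {i0 : Fin r} (u : S i0 ≅ 𝟙_ C)

/-- Objects of `C` with a frame. -/
structure HObj (hS : IsSimpleList S) (G : ∀ a b : Fin r, Frame S (S a ⊗ S b)) {i0 : Fin r}
    (u : S i0 ≅ 𝟙_ C) where
  X : C
  F : Frame S X

namespace HObj

variable {hS G u}

instance : Category.{v} (HObj hS G u) where
  Hom A B := A.X ⟶ B.X
  id A := 𝟙 A.X
  comp {A B D} (f : A.X ⟶ B.X) (g : B.X ⟶ D.X) := f ≫ g
  id_comp {A B} (f : A.X ⟶ B.X) := Category.id_comp f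
  comp_id {A B} (f : A.X ⟶ B.X) := Category.comp_id f
  assoc {A B D E} (f : A.X ⟶ B.X) (g : B.X ⟶ D.X) (h : D.X ⟶ E.X) := Category.assoc f g h

instance : Preadditive (HObj hS G u) where
  homGroup A B := inferInstanceAs (AddCommGroup (A.X ⟶ B.X))
  add_comp A B D (f f' : A.X ⟶ B.X) (g : B.X ⟶ D.X) := Preadditive.add_comp A.X B.X D.X f f' g
  comp_add A B D (f : A.X ⟶ B.X) (g g' : B.X ⟶ D.X) := Preadditive.comp_add A.X B.X D.X f g g'

instance : Linear ℂ (HObj hS G u) where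
  homModule A B := inferInstanceAs (Module ℂ (A.X ⟶ B.X))
  smul_comp A B D (c : ℂ) (f : A.X ⟶ B.X) (g : B.X ⟶ D.X) := Linear.smul_comp A.X B.X D.X c f g
  comp_smul A B D (f : A.X ⟶ B.X) (c : ℂ) (g : B.X ⟶ D.X) := Linear.comp_smul A.X B.X D.X f c g

/-- An isomorphism of underlying objects. -/
def isoOf {A B : HObj hS G u} (e : A.X ≅ B.X) : A ≅ B where
  hom := e.hom
  inv := e.inv
  hom_inv_id := e.hom_inv_id
  inv_hom_id := e.inv_hom_id

noncomputable instance : MonoidalCategoryStruct (HObj hS G u) where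
  tensorObj A B := ⟨A.X ⊗ B.X, tensorFrame hS G A.F B.F⟩
  whiskerLeft A {B B'} (f : B.X ⟶ B'.X) := (A.X ◁ f : A.X ⊗ B.X ⟶ A.X ⊗ B'.X)
  whiskerRight {A A'} (f : A.X ⟶ A'.X) B := (f ▷ B.X : A.X ⊗ B.X ⟶ A'.X ⊗ B.X)
  tensorHom {A A' B B'} (f : A.X ⟶ A'.X) (g : B.X ⟶ B'.X) :=
    (f ⊗ₘ g : A.X ⊗ B.X ⟶ A'.X ⊗ B'.X)
  tensorUnit := ⟨𝟙_ C, single u⟩
  associator A B D := isoOf (α_ A.X B.X D.X)
  leftUnitor A := isoOf (λ_ A.X)
  rightUnitor A := isoOf (ρ_ A.X)

noncomputable instance : MonoidalCategory (HObj hS G u) where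
  tensorHom_def {A A' B B'} (f : A.X ⟶ A'.X) (g : B.X ⟶ B'.X) :=
    MonoidalCategory.tensorHom_def (C := C) f g
  id_tensorHom_id A B := MonoidalCategory.id_tensorHom_id (C := C) A.X B.X
  tensorHom_comp_tensorHom {A A' A'' B B' B''} (f : A.X ⟶ A'.X) (g : B.X ⟶ B'.X)
      (f' : A'.X ⟶ A''.X) (g' : B'.X ⟶ B''.X) :=
    MonoidalCategory.tensorHom_comp_tensorHom (C := C) f g f' g'
  whiskerLeft_id A B := MonoidalCategory.whiskerLeft_id (C := C) A.X B.X
  id_whiskerRight A B := MonoidalCategory.id_whiskerRight (C := C) A.X B.X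
  associator_naturality {A B D A' B' D'} (f : A.X ⟶ A'.X) (g : B.X ⟶ B'.X) (h : D.X ⟶ D'.X) :=
    MonoidalCategory.associator_naturality (C := C) f g h
  leftUnitor_naturality {A A'} (f : A.X ⟶ A'.X) :=
    MonoidalCategory.leftUnitor_naturality (C := C) f
  rightUnitor_naturality {A A'} (f : A.X ⟶ A'.X) :=
    MonoidalCategory.rightUnitor_naturality (C := C) f
  pentagon A B D E := MonoidalCategory.pentagon (C := C) A.X B.X D.X E.X
  triangle A B := MonoidalCategory.triangle (C := C) A.X B.X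

instance : MonoidalPreadditive (HObj hS G u) where
  whiskerLeft_zero {A B D} := MonoidalPreadditive.whiskerLeft_zero (C := C) (X := A.X) (Y := B.X)
    (Z := D.X)
  zero_whiskerRight {A B D} := MonoidalPreadditive.zero_whiskerRight (C := C) (X := A.X) (Y := B.X)
    (Z := D.X)
  whiskerLeft_add {A B D} (f g : B.X ⟶ D.X) :=
    MonoidalPreadditive.whiskerLeft_add (C := C) (X := A.X) f g
  add_whiskerRight {A B D} (f g : B.X ⟶ D.X) :=
    MonoidalPreadditive.add_whiskerRight (C := C) (X := A.X) f g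

instance : MonoidalLinear ℂ (HObj hS G u) where
  whiskerLeft_smul A {B D} (c : ℂ) (f : B.X ⟶ D.X) :=
    MonoidalLinear.whiskerLeft_smul (C := C) A.X c f
  smul_whiskerRight (c : ℂ) {B D} (f : B.X ⟶ D.X) A :=
    MonoidalLinear.smul_whiskerRight (C := C) c f A.X

variable (hS G u)

/-- The forgetful functor. -/
def forget : HObj hS G u ⥤ C where
  obj A := A.X
  map {A B} (f : A.X ⟶ B.X) := f
  map_id _ := rfl
  map_comp _ _ := rfl

instance : (forget hS G u).Additive where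
  map_add := rfl

instance : (forget hS G u).Linear ℂ where
  map_smul _ _ := rfl

instance : (forget hS G u).Full where
  map_surjective f := ⟨f, rfl⟩

instance : (forget hS G u).Faithful where
  map_injective h := h

noncomputable instance : (forget hS G u).Monoidal :=
  Functor.CoreMonoidal.toMonoidal
    { εIso := Iso.refl _
      μIso := fun A B => Iso.refl _
      μIso_hom_natural_left := by
        intro A B f D
        exact (Category.comp_id _).trans (Category.id_comp _).symm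
      μIso_hom_natural_right := by
        intro A B D f
        exact (Category.comp_id _).trans (Category.id_comp _).symm
      associativity := by
        intro A B D
        change (𝟙 (A.X ⊗ B.X)) ▷ D.X ≫ 𝟙 ((A.X ⊗ B.X) ⊗ D.X) ≫ (α_ A.X B.X D.X).hom =
          (α_ A.X B.X D.X).hom ≫ A.X ◁ (𝟙 (B.X ⊗ D.X)) ≫ 𝟙 (A.X ⊗ B.X ⊗ D.X)
        simp
      left_unitality := by
        intro A
        change (λ_ A.X).hom = 𝟙 (𝟙_ C) ▷ A.X ≫ 𝟙 (𝟙_ C ⊗ A.X) ≫ (λ_ A.X).hom
        simp
      right_unitality := by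
        intro A
        change (ρ_ A.X).hom = A.X ◁ 𝟙 (𝟙_ C) ≫ 𝟙 (A.X ⊗ 𝟙_ C) ≫ (ρ_ A.X).hom
        simp }

lemma essSurj (F0 : ∀ Z : C, Frame S Z) : (forget hS G u).EssSurj where
  mem_essImage Z := ⟨⟨Z, F0 Z⟩, ⟨Iso.refl _⟩⟩

lemma isEquivalence (F0 : ∀ Z : C, Frame S Z) : (forget hS G u).IsEquivalence :=
  have := essSurj hS G u F0
  { }

/-- The C*-tensor structure on framed objects. -/
noncomputable def cstar (hG : UFrame hS G) (hr : ∀ i μ, ‖xr hS G u i μ‖ = 1)
    (hl : ∀ i μ, ‖xl hS G u i μ‖ = 1) : CStarTensor (HObj hS G u) where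
  dag {A B} (f : A.X ⟶ B.X) := dagF hS A.F B.F f
  nrm {A B} (f : A.X ⟶ B.X) := nrmF hS A.F B.F f
  dag_dag {A B} f := dagF_dagF hS A.F B.F f
  dag_comp {A B D} f g := dagF_comp hS A.F B.F D.F f g
  dag_add {A B} f g := dagF_add hS A.F B.F f g
  dag_smul {A B} c f := dagF_smul hS A.F B.F c f
  eq_zero_of_nrm {A B} f h := nrmF_eq_zero hS A.F B.F f h
  nrm_add_le {A B} f g := nrmF_add hS A.F B.F f g
  nrm_smul {A B} c f := nrmF_smul hS A.F B.F c f
  nrm_comp_le {A B D} f g := nrmF_comp hS A.F B.F D.F f g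
  nrm_comp_dag {A B} f := nrmF_comp_dag hS A.F B.F f
  complete {A B} F h := nrmF_complete hS A.F B.F F h
  positive {A B} f := dagF_positive hS A.F B.F f
  dag_tensor {A B A' B'} f g := dagF_tensor hS G A.F B.F A'.F B'.F f g
  dag_associator A B D := dagF_associator hS G A.F B.F D.F hG
  dag_leftUnitor A := dagF_leftUnitor hS G u A.F hl
  dag_rightUnitor A := dagF_rightUnitor hS G u A.F hr

end HObj

end Pool.Agent.H60R2.UF
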