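import Pool.Agent.H60R2.UF.Galindo

/-!
# Half-braidings in C*-tensor categories are unitary: the main argument
-/

set_option autoImplicit false
set_option linter.unusedSectionVars false

open CategoryTheory CategoryTheory.Limits MonoidalCategory

namespace Pool.Agent.H60R2.UF

universe w v u

variable {D : Type w} [Category.{v} D] [Preadditive D] [Linear ℂ D] [MonoidalCategory D]
  [MonoidalPreadditive D] [MonoidalLinear ℂ D]

/-- A finite family of simple objects with duals such that all objects are orthogonal sums of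
members of the family. -/
structure SimpleData (A : CStarTensor D) (r : ℕ) where
  s : Fin r → D
  s' : Fin r → D
  R : ∀ j, 𝟙_ D ⟶ s j ⊗ s' j
  scal : ∀ j, IsScalar (s j)
  scal' : ∀ j, IsScalar (s' j)
  unit : IsScalar (𝟙_ D)
  factor : ∀ (j : Fin r) (Z' : D) (R' : 𝟙_ D ⟶ s j ⊗ Z'), ∃ w : s' j ⟶ Z', R' = R j ≫ s j ◁ w
  faithful : ∀ (j : Fin r) (X W : D) (U : X ⊗ s j ⟶ W), VV (R j) U = 0 → U = 0
  dec : ∀ Z : D, ∃ (n : ℕ) (idx : Fin n → Fin r) (v : ∀ b, s (idx b) ⟶ Z),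
    (∀ b b', b ≠ b' → v b ≫ A.dag (v b') = 0) ∧
    (∀ b, v b ≫ A.dag (v b) = 𝟙 _) ∧ ∑ b, A.dag (v b) ≫ v b = 𝟙 Z

variable {A : CStarTensor D} {r : ℕ} (T : SimpleData A r)

lemma dag_VV {X Z Z' W : D} (R : 𝟙_ D ⟶ Z ⊗ Z') (U : X ⊗ Z ⟶ W) :
    A.dag (VV R U) = A.dag U ▷ Z' ≫ (α_ X Z Z').hom ≫ X ◁ A.dag R ≫ (ρ_ X).hom := by
  simp only [VV, A.dag_comp, A.dag_whiskerRight, A.dag_whiskerLeft, A.dag_associator_inv,
    A.dag_rightUnitor_inv, Category.assoc]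

lemma VV_comp_dag {X Z Z' W : D} (R : 𝟙_ D ⟶ Z ⊗ Z') (U U' : X ⊗ Z ⟶ W)
    (h : U ≫ A.dag U' = 𝟙 _) (h1 : IsScalar (𝟙_ D)) :
    VV R U ≫ A.dag (VV R U') = ((A.nrm R ^ 2 : ℝ) : ℂ) • 𝟙 X := by
  rw [dag_VV]
  unfold VV
  simp only [Category.assoc]
  rw [← comp_whiskerRight_assoc, h]
  simp only [id_whiskerRight, Category.id_comp, Iso.inv_hom_id_assoc]
  rw [← MonoidalCategory.whiskerLeft_comp_assoc, A.comp_dag_eq h1, MonoidalLinear.whiskerLeft_smul]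
  simp

/-- Squared norms add up for orthogonal sums. -/
lemma nrm_sq_sum {X Z : D} (hX : IsScalar X) {n : ℕ} (P : Fin n → (X ⟶ Z)) (Q : X ⟶ Z)
    (hQ : Q = ∑ b, P b) (h : ∀ b b', b ≠ b' → P b ≫ A.dag (P b') = 0) :
    A.nrm Q ^ 2 = ∑ b, A.nrm (P b) ^ 2 := by
  apply A.nrm_sq_of_comp_dag hX
  rw [hQ, A.dag_sum, Preadditive.sum_comp]
  push_cast
  rw [Finset.sum_smul]
  refine Finset.sum_congr rfl fun b _ => ?_
  rw [Preadditive.comp_sum, Finset.sum_eq_single b]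
  · rw [A.comp_dag_eq hX]
    push_cast
    rfl
  · intro b' _ hb
    exact h b b' (Ne.symm hb)
  · intro h; exact absurd (Finset.mem_univ _) h

lemma nrm_sq_comp_iso {X Z Z' : D} (hX : IsScalar X) (P : X ⟶ Z) (f : Z ⟶ Z')
    (h : f ≫ A.dag f = 𝟙 Z) : A.nrm (P ≫ f) ^ 2 = A.nrm P ^ 2 := by
  apply A.nrm_sq_of_comp_dag hX
  rw [A.dag_comp, Category.assoc, ← Category.assoc f, h, Category.id_comp, A.comp_dag_eq hX]

lemma nrm_sq_comp_smul {X Z Z' : D} (hX : IsScalar X) (P : X ⟶ Z) (f : Z ⟶ Z') (t : ℝ)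
    (h : f ≫ A.dag f = (t : ℂ) • 𝟙 Z) : A.nrm (P ≫ f) ^ 2 = t * A.nrm P ^ 2 := by
  apply A.nrm_sq_of_comp_dag hX
  rw [A.dag_comp, Category.assoc, ← Category.assoc f, h, Linear.smul_comp, Category.id_comp,
    Linear.comp_smul, A.comp_dag_eq hX, smul_smul]
  push_cast
  rfl

include T in
lemma claimA {X : D} (hX : IsScalar X) (b : HalfBraiding X) (ψ : ℝ)
    (hψ : ∀ j, A.nrm (VV (T.R j) (b.β (T.s j)).hom) ^ 2 ≤ ψ * A.nrm (T.R j) ^ 2)
    (Z Z' : D) (R' : 𝟙_ D ⟶ Z ⊗ Z') :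
    A.nrm (VV R' (b.β Z).hom) ^ 2 ≤ ψ * A.nrm R' ^ 2 := by
  obtain ⟨n, idx, v, h1, h2, h3⟩ := T.dec Z
  have e1 : (b.β Z).hom = ∑ c, X ◁ A.dag (v c) ≫ (b.β (T.s (idx c))).hom ≫ v c ▷ X := by
    have : (b.β Z).hom = X ◁ (∑ c, A.dag (v c) ≫ v c) ≫ (b.β Z).hom := by
      rw [h3]; simp
    rw [this, whiskerLeft_sum, Preadditive.sum_comp]
    refine Finset.sum_congr rfl fun c _ => ?_
    rw [MonoidalCategory.whiskerLeft_comp, Category.assoc, b.naturality]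
  have e2 : VV R' (b.β Z).hom = ∑ c, VV (R' ≫ A.dag (v c) ▷ Z') (b.β (T.s (idx c))).hom ≫
      (v c ▷ X) ▷ Z' := by
    conv_lhs => rw [e1]
    rw [VV_sum]
    refine Finset.sum_congr rfl fun c _ => ?_
    rw [VV_pre, VV_comp]
  have e3 : A.nrm (VV R' (b.β Z).hom) ^ 2 =
      ∑ c, A.nrm (VV (R' ≫ A.dag (v c) ▷ Z') (b.β (T.s (idx c))).hom) ^ 2 := by
    rw [nrm_sq_sum hX _ _ e2]
    · refine Finset.sum_congr rfl fun c _ => ?_
      apply nrm_sq_comp_iso hX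
      rw [A.dag_whiskerRight, A.dag_whiskerRight, ← comp_whiskerRight, ← comp_whiskerRight, h2]
      simp
    · intro c c' hc
      rw [A.dag_comp, A.dag_whiskerRight, A.dag_whiskerRight, Category.assoc,
        ← comp_whiskerRight_assoc, ← comp_whiskerRight, h1 c c' hc]
      simp
  have e4 : R' = ∑ c, (R' ≫ A.dag (v c) ▷ Z') ≫ v c ▷ Z' := by
    have : R' = R' ≫ (∑ c, A.dag (v c) ≫ v c) ▷ Z' := by rw [h3]; simp
    conv_lhs => rw [this]
    rw [sum_whiskerRight, Preadditive.comp_sum]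
    refine Finset.sum_congr rfl fun c _ => ?_
    simp
  have e5 : A.nrm R' ^ 2 = ∑ c, A.nrm (R' ≫ A.dag (v c) ▷ Z') ^ 2 := by
    rw [nrm_sq_sum T.unit _ _ e4]
    · refine Finset.sum_congr rfl fun c _ => ?_
      apply nrm_sq_comp_iso T.unit
      rw [A.dag_whiskerRight, ← comp_whiskerRight, h2]
      simp
    · intro c c' hc
      rw [A.dag_comp (R' ≫ A.dag (v c') ▷ Z'), A.dag_whiskerRight, Category.assoc,
        ← comp_whiskerRight_assoc, h1 c c' hc]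
      simp
  rw [e3, e5, Finset.mul_sum]
  refine Finset.sum_le_sum fun c _ => ?_
  obtain ⟨w, hw⟩ := T.factor (idx c) Z' (R' ≫ A.dag (v c) ▷ Z')
  rw [hw, VV_post]
  have h4 : ∀ W : D, (W ◁ w) ≫ A.dag (W ◁ w) = ((A.nrm w ^ 2 : ℝ) : ℂ) • 𝟙 _ := by
    intro W
    rw [A.dag_whiskerLeft, ← MonoidalCategory.whiskerLeft_comp, A.comp_dag_eq (T.scal' _),
      MonoidalLinear.whiskerLeft_smul]
    simp
  rw [nrm_sq_comp_smul hX _ _ _ (h4 _), nrm_sq_comp_smul T.unit _ _ _ (h4 _)]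
  have h5 := mul_le_mul_of_nonneg_left (hψ (idx c)) (sq_nonneg (A.nrm w))
  linarith

lemma coh_dag (X Y Y' Z Z' : D) : coh X Y Y' Z Z' ≫ A.dag (coh X Y Y' Z Z') = 𝟙 _ := by
  unfold coh
  simp only [A.dag_comp, A.dag_whiskerRight, A.dag_associator_inv, A.dag_associator,
    Category.assoc, Iso.hom_inv_id_assoc]
  simp

lemma claimB {X Y Y' Z Z' : D} (hX : IsScalar X) (b : HalfBraiding X) (RY : 𝟙_ D ⟶ Y ⊗ Y')
    (RZ : 𝟙_ D ⟶ Z ⊗ Z') : A.nrm (VV (nest RY RZ) (b.β (Y ⊗ Z)).hom) ^ 2 =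
      A.nrm (VV RZ (b.β Z).hom) ^ 2 * A.nrm (VV RY (b.β Y).hom) ^ 2 := by
  rw [VV_nest, ← Category.assoc, nrm_sq_comp_iso hX _ _ (coh_dag X Y Y' Z Z'),
    nrm_sq_comp_smul hX]
  rw [A.dag_whiskerRight, A.dag_whiskerLeft, ← comp_whiskerRight,
    ← MonoidalCategory.whiskerLeft_comp, A.comp_dag_eq hX, MonoidalLinear.whiskerLeft_smul,
    MonoidalLinear.smul_whiskerRight]
  simp

lemma nest_nrm {Y Y' Z Z' : D} (h1 : IsScalar (𝟙_ D)) (RY : 𝟙_ D ⟶ Y ⊗ Y')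
    (RZ : 𝟙_ D ⟶ Z ⊗ Z') : A.nrm (nest RY RZ) ^ 2 = A.nrm RZ ^ 2 * A.nrm RY ^ 2 := by
  unfold nest
  rw [nrm_sq_comp_smul h1]
  simp only [A.dag_comp, A.dag_whiskerRight, A.dag_whiskerLeft, A.dag_associator_inv,
    A.dag_associator, A.dag_leftUnitor_inv, Category.assoc, Iso.inv_hom_id_assoc,
    MonoidalCategory.whiskerLeft_comp]
  rw [← MonoidalCategory.whiskerLeft_comp_assoc Y (α_ Z Z' Y').hom, Iso.hom_inv_id]
  simp only [MonoidalCategory.whiskerLeft_id, Category.id_comp]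
  rw [← MonoidalCategory.whiskerLeft_comp_assoc Y (RZ ▷ Y'), ← comp_whiskerRight,
    A.comp_dag_eq h1, MonoidalLinear.smul_whiskerRight, MonoidalLinear.whiskerLeft_smul]
  simp only [id_whiskerRight, MonoidalCategory.whiskerLeft_id, Linear.smul_comp,
    Linear.comp_smul, Category.id_comp]
  rw [← MonoidalCategory.whiskerLeft_comp, Iso.inv_hom_id, MonoidalCategory.whiskerLeft_id]

include T in
lemma nrm_le [Nonempty (Fin r)] {X : D} (hX : IsScalar X) (b : HalfBraiding X) (j : Fin r) :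
    A.nrm (VV (T.R j) (b.β (T.s j)).hom) ^ 2 ≤ A.nrm (T.R j) ^ 2 := by
  have hpos : ∀ j, 0 < A.nrm (T.R j) ^ 2 := by
    intro j
    have h0 : A.nrm (T.R j) ≠ 0 := by
      intro h
      have h1 := A.eq_zero_of_nrm _ h
      have h2 : (𝟙 (T.s j ⊗ T.s j) : T.s j ⊗ T.s j ⟶ T.s j ⊗ T.s j) = 0 := by
        apply T.faithful j
        unfold VV
        rw [h1]
        simp
      have h3 : (λ_ (T.s j)).hom = 0 := by
        apply T.faithful j
        unfold VV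
        rw [h1]
        simp
      apply (T.scal j).id_ne
      rw [← (λ_ (T.s j)).inv_hom_id, h3, comp_zero]
    positivity
  obtain ⟨j0, -, hj0⟩ := Finset.exists_max_image Finset.univ
    (fun j => A.nrm (VV (T.R j) (b.β (T.s j)).hom) ^ 2 / A.nrm (T.R j) ^ 2)
    Finset.univ_nonempty
  set ψ := A.nrm (VV (T.R j0) (b.β (T.s j0)).hom) ^ 2 / A.nrm (T.R j0) ^ 2 with hψ
  have hle : ∀ j, A.nrm (VV (T.R j) (b.β (T.s j)).hom) ^ 2 ≤ ψ * A.nrm (T.R j) ^ 2 := by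
    intro j
    have := hj0 j (Finset.mem_univ _)
    rwa [div_le_iff₀ (hpos j)] at this
  have h1 := claimA T hX b ψ hle _ _ (nest (T.R j0) (T.R j0))
  rw [claimB hX, nest_nrm T.unit] at h1
  have h2 : A.nrm (VV (T.R j0) (b.β (T.s j0)).hom) ^ 2 = ψ * A.nrm (T.R j0) ^ 2 := by
    rw [hψ, div_mul_cancel₀]
    exact (hpos j0).ne'
  rw [h2] at h1
  have h3 := hpos j0
  have hψ0 : 0 ≤ ψ := by rw [hψ]; positivity
  have h4 : ψ ≤ 1 := by
    by_contra hcon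
    push Not at hcon
    have h5 : ψ * (A.nrm (T.R j0) ^ 2 * A.nrm (T.R j0) ^ 2) <
        ψ * A.nrm (T.R j0) ^ 2 * (ψ * A.nrm (T.R j0) ^ 2) := by
      have h6 : 0 < A.nrm (T.R j0) ^ 2 * A.nrm (T.R j0) ^ 2 := mul_pos h3 h3
      have h7 : 0 < ψ := lt_trans one_pos hcon
      nlinarith [mul_pos h7 h6]
    linarith
  calc A.nrm (VV (T.R j) (b.β (T.s j)).hom) ^ 2 ≤ ψ * A.nrm (T.R j) ^ 2 := hle j
    _ ≤ 1 * A.nrm (T.R j) ^ 2 := mul_le_mul_of_nonneg_right h4 (hpos j).le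
    _ = _ := one_mul _

/-- The adjoint inverse of a half-braiding. -/
def tildeHB (A : CStarTensor D) {X : D} (b : HalfBraiding X) : HalfBraiding X where
  β Z :=
    { hom := A.dag (b.β Z).inv
      inv := A.dag (b.β Z).hom
      hom_inv_id := by rw [← A.dag_comp, Iso.hom_inv_id, A.dag_id]
      inv_hom_id := by rw [← A.dag_comp, Iso.inv_hom_id, A.dag_id] }
  monoidal U U' := by
    have h : (b.β (U ⊗ U')).inv = (α_ _ _ _).hom ≫ U ◁ (b.β U').inv ≫ (α_ _ _ _).inv ≫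
        (b.β U).inv ▷ U' ≫ (α_ _ _ _).hom := by
      apply Iso.inv_ext
      rw [b.monoidal]
      simp
    simp only
    rw [h]
    simp only [A.dag_comp, A.dag_whiskerRight, A.dag_whiskerLeft, A.dag_associator,
      A.dag_associator_inv, Category.assoc]
  naturality {U U'} f := by
    simp only
    have h := b.naturality (A.dag f)
    have h2 : (b.β U').inv ≫ X ◁ A.dag f = A.dag f ▷ X ≫ (b.β U).inv := by
      rw [Iso.inv_comp_eq, ← Category.assoc, ← h, Category.assoc, Iso.hom_inv_id,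
        Category.comp_id]
    have h3 := congrArg A.dag h2
    simp only [A.dag_comp, A.dag_whiskerRight, A.dag_whiskerLeft, A.dag_dag] at h3
    exact h3

include T in
theorem half_unitary [Nonempty (Fin r)] {X : D} (hX : IsScalar X) (b : HalfBraiding X) (Z : D) :
    A.dag (b.β Z).hom = (b.β Z).inv := by
  have h1 : ∀ j, (b.β (T.s j)).hom = ((tildeHB A b).β (T.s j)).hom := by
    intro j
    rw [← sub_eq_zero]
    apply T.faithful j
    rw [VV_sub]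
    set P := VV (T.R j) (b.β (T.s j)).hom with hP
    set Q := VV (T.R j) ((tildeHB A b).β (T.s j)).hom with hQ
    have h2 : A.nrm P ^ 2 ≤ A.nrm (T.R j) ^ 2 := nrm_le T hX b j
    have h3 : A.nrm Q ^ 2 ≤ A.nrm (T.R j) ^ 2 := nrm_le T hX (tildeHB A b) j
    have h4 : P ≫ A.dag Q = ((A.nrm (T.R j) ^ 2 : ℝ) : ℂ) • 𝟙 X := by
      refine VV_comp_dag _ _ _ ?_ T.unit
      change (b.β (T.s j)).hom ≫ A.dag (A.dag (b.β (T.s j)).inv) = _
      rw [A.dag_dag, Iso.hom_inv_id]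
    have h5 : Q ≫ A.dag P = ((A.nrm (T.R j) ^ 2 : ℝ) : ℂ) • 𝟙 X := by
      refine VV_comp_dag _ _ _ ?_ T.unit
      change A.dag (b.β (T.s j)).inv ≫ A.dag (b.β (T.s j)).hom = _
      rw [← A.dag_comp, Iso.hom_inv_id, A.dag_id]
    have h6 : A.nrm (P - Q) ^ 2 = A.nrm P ^ 2 + A.nrm Q ^ 2 - 2 * A.nrm (T.R j) ^ 2 := by
      apply A.nrm_sq_of_comp_dag hX
      rw [A.dag_sub, Preadditive.sub_comp, Preadditive.comp_sub, Preadditive.comp_sub, h4, h5,
        A.comp_dag_eq hX P, A.comp_dag_eq hX Q, ← sub_smul, ← sub_smul, ← sub_smul]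
      congr 1
      push_cast
      ring
    have h7 : A.nrm (P - Q) ^ 2 ≤ 0 := by linarith
    have h8 : A.nrm (P - Q) = 0 := by
      have := le_antisymm h7 (sq_nonneg _)
      exact pow_eq_zero_iff two_ne_zero |>.mp this
    exact A.eq_zero_of_nrm _ h8
  have h2 : (b.β Z).hom = ((tildeHB A b).β Z).hom := by
    obtain ⟨n, idx, v, -, -, h3⟩ := T.dec Z
    have e1 : ∀ b' : HalfBraiding X, (b'.β Z).hom =
        ∑ c, X ◁ A.dag (v c) ≫ (b'.β (T.s (idx c))).hom ≫ v c ▷ X := by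
      intro b'
      have : (b'.β Z).hom = X ◁ (∑ c, A.dag (v c) ≫ v c) ≫ (b'.β Z).hom := by
        rw [h3]; simp
      rw [this, whiskerLeft_sum, Preadditive.sum_comp]
      refine Finset.sum_congr rfl fun c _ => ?_
      rw [MonoidalCategory.whiskerLeft_comp, Category.assoc, b'.naturality]
    rw [e1 b, e1 (tildeHB A b)]
    exact Finset.sum_congr rfl fun c _ => by rw [h1]
  have h3 : (b.β Z).hom = A.dag (b.β Z).inv := h2
  rw [h3, A.dag_dag]

include T in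
/-- Braidings are unitary. -/
theorem braiding_unitary [Nonempty (Fin r)] [BraidedCategory D] (X Y : D) :
    A.dag (β_ X Y).hom = (β_ X Y).inv := by
  have h1 : ∀ j, A.dag (β_ (T.s j) Y).hom = (β_ (T.s j) Y).inv := fun j =>
    half_unitary T (T.scal j) (Center.ofBraidedObj (T.s j)).2 Y
  obtain ⟨n, idx, v, -, -, h3⟩ := T.dec X
  have e1 : (β_ X Y).hom =
      ∑ c, A.dag (v c) ▷ Y ≫ (β_ (T.s (idx c)) Y).hom ≫ Y ◁ v c := by
    have : (β_ X Y).hom = (∑ c, A.dag (v c) ≫ v c) ▷ Y ≫ (β_ X Y).hom := by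
      rw [h3]; simp
    rw [this, sum_whiskerRight, Preadditive.sum_comp]
    refine Finset.sum_congr rfl fun c _ => ?_
    rw [comp_whiskerRight, Category.assoc, BraidedCategory.braiding_naturality_left]
  have e2 : (β_ X Y).inv =
      ∑ c, Y ◁ A.dag (v c) ≫ (β_ (T.s (idx c)) Y).inv ≫ v c ▷ Y := by
    have : (β_ X Y).inv = Y ◁ (∑ c, A.dag (v c) ≫ v c) ≫ (β_ X Y).inv := by
      rw [h3]; simp
    rw [this, whiskerLeft_sum, Preadditive.sum_comp]
    refine Finset.sum_congr rfl fun c _ => ?_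
    rw [MonoidalCategory.whiskerLeft_comp, Category.assoc,
      BraidedCategory.braiding_inv_naturality_right]
  rw [e1, e2, A.dag_sum]
  refine Finset.sum_congr rfl fun c _ => ?_
  rw [A.dag_comp, A.dag_comp, A.dag_whiskerLeft, A.dag_whiskerRight, A.dag_dag, h1,
    Category.assoc]

end Pool.Agent.H60R2.UF
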