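import Pool.Agent.H60R2.UF.HCat
import Pool.Agent.H60R2.UF.HalfUnitary

/-!
# The main theorem on half-braidings applies to framed objects
-/

set_option autoImplicit false
set_option linter.unusedSectionVars false

open CategoryTheory CategoryTheory.Limits MonoidalCategory

namespace Pool.Agent.H60R2.UF

open Pool.Agent.Helper781.Fusion

universe w v u

section gen

variable {C : Type u} [Category.{v} C] [Preadditive C] [Linear ℂ C] [MonoidalCategory C]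
  [MonoidalPreadditive C] [MonoidalLinear ℂ C]

lemma VV_eta_injective {X Y Y' W : C} [ExactPairing Y Y'] (U : X ⊗ Y ⟶ W)
    (h : VV (η_ Y Y') U = 0) : U = 0 := by
  have h1 : tensorRightHomEquiv X Y Y' W U = tensorRightHomEquiv X Y Y' W 0 := by
    change (ρ_ _).inv ≫ _ ◁ η_ _ _ ≫ (α_ _ _ _).inv ≫ U ▷ _ =
      (ρ_ _).inv ≫ _ ◁ η_ _ _ ≫ (α_ _ _ _).inv ≫ (0 : X ⊗ Y ⟶ W) ▷ _
    rw [MonoidalPreadditive.zero_whiskerRight]
    simp only [comp_zero]
    exact h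
  exact (tensorRightHomEquiv X Y Y' W).injective h1

lemma VV_eta_surjective {X Y Y' W : C} [ExactPairing Y Y'] (V : X ⟶ W ⊗ Y') :
    ∃ U : X ⊗ Y ⟶ W, VV (η_ Y Y') U = V := by
  obtain ⟨U, hU⟩ := (tensorRightHomEquiv X Y Y' W).surjective V
  exact ⟨U, hU⟩

lemma VV_leftUnitor {Y Y' : C} [ExactPairing Y Y'] : VV (η_ Y Y') (λ_ Y).hom = η_ Y Y' := by
  unfold VV
  monoidal

lemma tensorLeft_apply {Y Y' Z : C} [ExactPairing Y Y'] (w : Y' ⟶ Z) :
    tensorLeftHomEquiv (𝟙_ C) Y Y' Z ((ρ_ Y').hom ≫ w) = η_ Y Y' ≫ Y ◁ w := by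
  change (λ_ _).inv ≫ η_ _ _ ▷ _ ≫ (α_ _ _ _).hom ≫ _ ◁ ((ρ_ Y').hom ≫ w) = _
  monoidal

lemma eta_factor {Y Y' Z : C} [ExactPairing Y Y'] (R' : 𝟙_ C ⟶ Y ⊗ Z) :
    ∃ w : Y' ⟶ Z, R' = η_ Y Y' ≫ Y ◁ w := by
  obtain ⟨f, hf⟩ := (tensorLeftHomEquiv (𝟙_ C) Y Y' Z).surjective R'
  refine ⟨(ρ_ Y').inv ≫ f, ?_⟩
  rw [← tensorLeft_apply, Iso.hom_inv_id_assoc, hf]

lemma eta_injective {Y Y' Z : C} [ExactPairing Y Y'] {w w' : Y' ⟶ Z}
    (h : η_ Y Y' ≫ Y ◁ w = η_ Y Y' ≫ Y ◁ w') : w = w' := by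
  rw [← tensorLeft_apply, ← tensorLeft_apply] at h
  have h2 := (tensorLeftHomEquiv (𝟙_ C) Y Y' Z).injective h
  have h3 : (ρ_ Y').inv ≫ (ρ_ Y').hom ≫ w = (ρ_ Y').inv ≫ (ρ_ Y').hom ≫ w' := by rw [h2]
  simpa using h3

lemma isScalar_dual {Y Y' : C} [ExactPairing Y Y'] (hY : IsScalar Y) : IsScalar Y' where
  scalar f := by
    obtain ⟨U, hU⟩ := VV_eta_surjective (X := 𝟙_ C) (Y := Y) (Y' := Y') (W := Y)
      (η_ Y Y' ≫ Y ◁ f)
    obtain ⟨c, hc⟩ := hY.scalar ((λ_ Y).inv ≫ U)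
    refine ⟨c, eta_injective (Y := Y) ?_⟩
    rw [← hU]
    have h1 : U = c • (λ_ Y).hom := by
      have : U = (λ_ Y).hom ≫ (λ_ Y).inv ≫ U := by simp
      rw [this, hc]
      simp
    rw [h1]
    have h2 : VV (η_ Y Y') (c • (λ_ Y).hom) = c • VV (η_ Y Y') (λ_ Y).hom := by
      simp only [VV, MonoidalLinear.smul_whiskerRight, Linear.comp_smul]
    rw [h2, VV_leftUnitor, MonoidalLinear.whiskerLeft_smul, Linear.comp_smul]
    simp
  id_ne := by
    intro h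
    apply hY.id_ne
    have h1 : η_ Y Y' = 0 := by
      have : η_ Y Y' = η_ Y Y' ≫ Y ◁ (𝟙 Y') := by simp
      rw [this, h]
      simp
    have h2 : (λ_ Y).hom = 0 := by
      apply VV_eta_injective (Y' := Y')
      rw [VV_leftUnitor, h1]
    rw [← (λ_ Y).inv_hom_id, h2, comp_zero]

end gen

variable {C : Type u} [Category.{v} C] [Abelian C] [Linear ℂ C]
variable {r : ℕ} {S : Fin r → C} (hS : IsSimpleList S) [hfd : ∀ X Y : C, FiniteDimensional ℂ (X ⟶ Y)]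

lemma dagF_inc {X : C} (F : Frame S X) (i : Fin r) (a : F.J i) :
    dagF hS (single (Iso.refl (S i))) F (F.inc i a) = F.prj i a := by
  classical
  apply dagF_eq_of_mat
  rintro k ⟨hk⟩ b
  subst hk
  rw [mat_apply, mat_apply, single_inc, single_prj]
  simp only [Iso.refl_hom, Iso.refl_inv, Category.comp_id, Category.id_comp]
  by_cases h : a = b
  · subst h
    rw [F.same, sc_one, map_one]
  · rw [F.diff k a b h, F.diff k b a (Ne.symm h), map_zero, map_zero]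

include hS in
lemma inc_prj_ne_sigma {X : C} (F : Frame S X) (x x' : Σ i, F.J i) (h : x ≠ x') :
    F.inc x.1 x.2 ≫ F.prj x'.1 x'.2 = 0 := by
  obtain ⟨i, a⟩ := x
  obtain ⟨i', a'⟩ := x'
  by_cases hi : i = i'
  · subst hi
    exact F.diff i a a' (fun h2 => h (by rw [h2]))
  · exact hom_zero hS hi _

include hS in
lemma isScalar_S (i : Fin r) : IsScalar (S i) where
  scalar f := ⟨sc hS i f, sc_spec hS i f⟩
  id_ne := by
    have := hS.simple i
    exact id_nonzero (S i)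

variable [MonoidalCategory C] [MonoidalPreadditive C] [MonoidalLinear ℂ C]
variable (G : ∀ a b : Fin r, Frame S (S a ⊗ S b)) {i0 : Fin r} (u : S i0 ≅ 𝟙_ C)

include hS u in
lemma isScalar_unit : IsScalar (𝟙_ C) where
  scalar f := by
    refine ⟨sc hS i0 (u.hom ≫ f ≫ u.inv), ?_⟩
    have h1 : f = u.inv ≫ (u.hom ≫ f ≫ u.inv) ≫ u.hom := by simp
    conv_lhs => rw [h1, sc_spec hS i0 (u.hom ≫ f ≫ u.inv)]
    simp
  id_ne := by
    intro h
    apply (isScalar_S hS i0).id_ne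
    rw [← u.hom_inv_id, ← Category.comp_id u.hom, h]
    simp

/-- The family of simple framed objects. -/
noncomputable def simpleData [RigidCategory C] (F0 : ∀ Z : C, Frame S Z) (hG : UFrame hS G)
    (hr : ∀ i μ, ‖xr hS G u i μ‖ = 1) (hl : ∀ i μ, ‖xl hS G u i μ‖ = 1) :
    SimpleData (HObj.cstar hS G u hG hr hl) r where
  s i := ⟨S i, single (Iso.refl _)⟩
  s' i := ⟨(S i)ᘁ, F0 _⟩
  R i := (η_ (S i) (S i)ᘁ : 𝟙_ C ⟶ S i ⊗ (S i)ᘁ)
  scal i := ⟨fun f => (isScalar_S hS i).scalar f, (isScalar_S hS i).id_ne⟩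
  scal' i := ⟨fun f => (isScalar_dual (Y' := (S i)ᘁ) (isScalar_S hS i)).scalar f,
    (isScalar_dual (Y' := (S i)ᘁ) (isScalar_S hS i)).id_ne⟩
  unit := ⟨fun f => (isScalar_unit hS u).scalar f, (isScalar_unit hS u).id_ne⟩
  factor i Z' R' := eta_factor (C := C) (Y := S i) (Y' := (S i)ᘁ) (Z := Z'.X) R'
  faithful i X W U h := VV_eta_injective (C := C) (X := X.X) (Y := S i) (Y' := (S i)ᘁ)
    (W := W.X) U h
  dec Z := by
    classical
    have hdag : ∀ i (a : Z.F.J i), (HObj.cstar hS G u hG hr hl).dag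
        (X := (⟨S i, single (Iso.refl _)⟩ : HObj hS G u)) (Y := Z) (Z.F.inc i a) = Z.F.prj i a :=
      fun i a => dagF_inc hS Z.F i a
    let e := Fintype.equivFin (Σ i, Z.F.J i)
    refine ⟨Fintype.card (Σ i, Z.F.J i), fun b => (e.symm b).1,
      fun b => Z.F.inc _ (e.symm b).2, ?_, ?_, ?_⟩
    · intro b b' h
      rw [hdag]
      exact inc_prj_ne_sigma hS Z.F _ _ (fun h' => h (e.symm.injective h'))
    · intro b
      rw [hdag]
      exact Z.F.same _ _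
    · have h1 : ∀ b : Fin (Fintype.card (Σ i, Z.F.J i)), (HObj.cstar hS G u hG hr hl).dag
          (X := (⟨S (e.symm b).1, single (Iso.refl _)⟩ : HObj hS G u)) (Y := Z)
            (Z.F.inc _ (e.symm b).2) = Z.F.prj _ (e.symm b).2 := fun b => hdag _ _
      simp only [h1]
      change ∑ b, Z.F.prj (e.symm b).1 (e.symm b).2 ≫ Z.F.inc (e.symm b).1 (e.symm b).2 = 𝟙 Z.X
      rw [Equiv.sum_comp e.symm (fun x : Σ i, Z.F.J i => Z.F.prj x.1 x.2 ≫ Z.F.inc x.1 x.2),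
        Fintype.sum_sigma]
      exact Z.F.total

end Pool.Agent.H60R2.UF
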