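import Pool.Agent.H60R2.UF.Inst

/-!
# Unitary F-matrices imply unitarity
-/

set_option autoImplicit false
set_option linter.unusedSectionVars false

open CategoryTheory CategoryTheory.Limits MonoidalCategory

namespace Pool.Agent.H60R2.UF

open Pool.Agent.Helper781.Fusion

universe w v u

variable {C : Type u} [Category.{v} C] [Abelian C] [Linear ℂ C]
variable [MonoidalCategory C] [MonoidalPreadditive C] [MonoidalLinear ℂ C]

section braided

variable {r : ℕ} {S : Fin r → C} {hS : IsSimpleList S}
variable {G : ∀ a b : Fin r, Frame S (S a ⊗ S b)} {i0 : Fin r} {u : S i0 ≅ 𝟙_ C}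
variable [hfd : ∀ X Y : C, FiniteDimensional ℂ (X ⟶ Y)] [BraidedCategory C]

noncomputable instance : BraidedCategory (HObj hS G u) where
  braiding A B := HObj.isoOf (β_ A.X B.X)
  braiding_naturality_right A {B B'} (f : B.X ⟶ B'.X) :=
    BraidedCategory.braiding_naturality_right (C := C) A.X f
  braiding_naturality_left {A A'} (f : A.X ⟶ A'.X) B :=
    BraidedCategory.braiding_naturality_left (C := C) f B.X
  hexagon_forward A B D := BraidedCategory.hexagon_forward (C := C) A.X B.X D.X
  hexagon_reverse A B D := BraidedCategory.hexagon_reverse (C := C) A.X B.X D.X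

noncomputable instance : (HObj.forget hS G u).Braided where
  braided A B := by
    change 𝟙 (A.X ⊗ B.X) ≫ (β_ A.X B.X).hom = (β_ A.X B.X).hom ≫ 𝟙 (B.X ⊗ A.X)
    simp

end braided

variable [RigidCategory C]

/-- The data constructed from a gauge with unitary F-matrices. -/
lemma exists_data (hC : IsFusionCategory C) {r : ℕ} {S : Fin r → C} (hS : IsSimpleList S)
    (g : Gauge S) (hg : HasUnitaryF g) [hfd : ∀ X Y : C, FiniteDimensional ℂ (X ⟶ Y)] :
    ∃ (_ : ∀ Z : C, Frame S Z) (G : ∀ a b : Fin r, Frame S (S a ⊗ S b)) (i0 : Fin r)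
      (u : S i0 ≅ 𝟙_ C), UFrame hS G ∧ (∀ i μ, ‖xr hS G u i μ‖ = 1) ∧
      (∀ i μ, ‖xl hS G u i μ‖ = 1) := by
  have dec : ∀ Z, Dec S Z := fun Z => (exists_dec hS hC.semisimple Z).some
  obtain ⟨i0, ⟨u0⟩⟩ := hS.complete _ hC.simple_unit
  have hG := uframe_of_unitary hS (fun Z => frameOfDec (dec Z)) g hg
  obtain ⟨u, h1, h2⟩ := exists_unit hS u0.symm (fun Z => frameOfDec (dec Z)) _ hG
  exact ⟨fun Z => frameOfDec (dec Z), _, i0, u, hG, h1, h2⟩

theorem isUnitary_of_gauge (hC : IsFusionCategory C) {r : ℕ} {S : Fin r → C}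
    (hS : IsSimpleList S) (g : Gauge S) (hg : HasUnitaryF g) :
    IsUnitary.{max u v 1} C := by
  have hfd : ∀ X Y : C, FiniteDimensional ℂ (X ⟶ Y) := hC.finiteDimensional_hom
  obtain ⟨F0, G, i0, u, hG, h1, h2⟩ := exists_data hC hS g hg
  exact ⟨HObj hS G u, inferInstance, inferInstance, inferInstance, inferInstance, inferInstance,
    inferInstance, HObj.cstar hS G u hG h1 h2, HObj.forget hS G u, inferInstance, inferInstance,
    inferInstance, HObj.isEquivalence hS G u F0⟩

theorem isUnitaryBraided_of_gauge [BraidedCategory C] (hC : IsFusionCategory C) {r : ℕ}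
    {S : Fin r → C} (hS : IsSimpleList S) (g : Gauge S) (hg : HasUnitaryF g) :
    IsUnitaryBraided.{max u v 1} C := by
  have hfd : ∀ X Y : C, FiniteDimensional ℂ (X ⟶ Y) := hC.finiteDimensional_hom
  obtain ⟨F0, G, i0, u, hG, h1, h2⟩ := exists_data hC hS g hg
  have : Nonempty (Fin r) := ⟨i0⟩
  exact ⟨HObj hS G u, inferInstance, inferInstance, inferInstance, inferInstance, inferInstance,
    inferInstance, inferInstance, HObj.cstar hS G u hG h1 h2, HObj.forget hS G u, inferInstance,
    inferInstance, fun X Y => braiding_unitary (simpleData hS G u F0 hG h1 h2) X Y,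
    inferInstance, HObj.isEquivalence hS G u F0⟩

end Pool.Agent.H60R2.UF
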