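import Pool.Agent.H60R2.UF.Frame

/-!
# The C*-norm on morphisms between framed objects
-/

set_option autoImplicit false
set_option linter.unusedSectionVars false

open CategoryTheory CategoryTheory.Limits MonoidalCategory

namespace Pool.Agent.H60R2.UF

open Pool.Agent.Helper781.Fusion

universe w v u

section matrix

open scoped Matrix.Norms.L2Operator MatrixOrder ComplexOrder Classical

lemma exists_sqrt {m n : Type*} [Fintype m] [Fintype n] (A : Matrix m n ℂ) :
    ∃ B : Matrix m m ℂ, A * A.conjTranspose = B * B.conjTranspose := by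
  classical
  obtain ⟨B, hB⟩ := CStarAlgebra.nonneg_iff_eq_mul_star_self.mp
    (Matrix.posSemidef_self_mul_conjTranspose A).nonneg
  exact ⟨B, hB⟩

/-- The maximum of the operator norms of a family of matrices. -/
noncomputable def famNorm {r : ℕ} {m n : Fin r → Type} [∀ i, Fintype (m i)] [∀ i, Fintype (n i)]
    (A : ∀ i, Matrix (m i) (n i) ℂ) : ℝ := ‖A‖

variable {r : ℕ} {m n l : Fin r → Type} [∀ i, Fintype (m i)] [∀ i, Fintype (n i)]
  [∀ i, Fintype (l i)]

lemma famNorm_add (A B : ∀ i, Matrix (m i) (n i) ℂ) : famNorm (A + B) ≤ famNorm A + famNorm B :=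
  norm_add_le A B

lemma famNorm_smul (c : ℂ) (A : ∀ i, Matrix (m i) (n i) ℂ) :
    famNorm (c • A) = ‖c‖ * famNorm A := norm_smul c A

lemma famNorm_eq_zero (A : ∀ i, Matrix (m i) (n i) ℂ) (h : famNorm A = 0) : A = 0 :=
  norm_eq_zero.mp h

lemma famNorm_mul (A : ∀ i, Matrix (m i) (n i) ℂ) (B : ∀ i, Matrix (n i) (l i) ℂ) :
    famNorm (fun i => A i * B i) ≤ famNorm A * famNorm B := by
  unfold famNorm
  refine (pi_norm_le_iff_of_nonneg (by positivity)).2 fun i => ?_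
  exact (Matrix.l2_opNorm_mul _ _).trans
    (mul_le_mul (norm_le_pi_norm A i) (norm_le_pi_norm B i) (norm_nonneg _) (norm_nonneg _))

lemma famNorm_sq (A : ∀ i, Matrix (m i) (n i) ℂ) :
    famNorm (fun i => A i * (A i).conjTranspose) = famNorm A ^ 2 := by
  classical
  have h : ∀ i, ‖A i * (A i).conjTranspose‖ = ‖A i‖ ^ 2 := by
    intro i
    have h1 := Matrix.l2_opNorm_conjTranspose_mul_self (A i).conjTranspose
    rw [Matrix.conjTranspose_conjTranspose, Matrix.l2_opNorm_conjTranspose] at h1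
    rw [h1, sq]
  unfold famNorm
  refine le_antisymm ?_ ?_
  · refine (pi_norm_le_iff_of_nonneg (by positivity)).2 fun i => ?_
    rw [h i]
    exact pow_le_pow_left₀ (norm_nonneg _) (norm_le_pi_norm A i) 2
  · have h2 : ‖A‖ ≤ Real.sqrt ‖fun i => A i * (A i).conjTranspose‖ := by
      refine (pi_norm_le_iff_of_nonneg (Real.sqrt_nonneg _)).2 fun i => ?_
      refine Real.le_sqrt_of_sq_le ?_
      rw [← h i]
      exact norm_le_pi_norm (fun i => A i * (A i).conjTranspose) i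
    calc ‖A‖ ^ 2 ≤ (Real.sqrt ‖fun i => A i * (A i).conjTranspose‖) ^ 2 :=
          pow_le_pow_left₀ (norm_nonneg _) h2 2
      _ = _ := Real.sq_sqrt (norm_nonneg _)

lemma famNorm_complete (F : ℕ → ∀ i, Matrix (m i) (n i) ℂ)
    (h : ∀ ε : ℝ, 0 < ε → ∃ N : ℕ, ∀ a b : ℕ, N ≤ a → N ≤ b → famNorm (F a - F b) < ε) :
    ∃ f : ∀ i, Matrix (m i) (n i) ℂ, ∀ ε : ℝ, 0 < ε → ∃ N : ℕ, ∀ a : ℕ, N ≤ a →
      famNorm (F a - f) < ε := by
  classical
  have hc : CompleteSpace (∀ i, Matrix (m i) (n i) ℂ) := FiniteDimensional.complete ℂ _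
  have hF : CauchySeq F := by
    rw [Metric.cauchySeq_iff]
    intro ε hε
    obtain ⟨N, hN⟩ := h ε hε
    exact ⟨N, fun a ha b hb => by rw [dist_eq_norm]; exact hN a b ha hb⟩
  obtain ⟨f, hf⟩ := cauchySeq_tendsto_of_complete hF
  refine ⟨f, fun ε hε => ?_⟩
  obtain ⟨N, hN⟩ := (Metric.tendsto_atTop.mp hf) ε hε
  exact ⟨N, fun a ha => by have := hN a ha; rwa [dist_eq_norm] at this⟩

end matrix

variable {C : Type u} [Category.{v} C] [Abelian C] [Linear ℂ C]
variable {r : ℕ} {S : Fin r → C} (hS : IsSimpleList S) [hfd : ∀ X Y : C, FiniteDimensional ℂ (X ⟶ Y)]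
variable {X Y Z W : C} (FX : Frame S X) (FY : Frame S Y) (FZ : Frame S Z) (FW : Frame S W)

/-- The operator norm of a morphism between framed objects. -/
noncomputable def nrmF (f : X ⟶ Y) : ℝ := famNorm (mat hS FX FY f)

lemma nrmF_add (f g : X ⟶ Y) : nrmF hS FX FY (f + g) ≤ nrmF hS FX FY f + nrmF hS FX FY g := by
  unfold nrmF
  have h : mat hS FX FY (f + g) = mat hS FX FY f + mat hS FX FY g := by
    funext i; exact mat_add hS FX FY f g i
  rw [h]
  exact famNorm_add _ _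

lemma nrmF_smul (c : ℂ) (f : X ⟶ Y) : nrmF hS FX FY (c • f) = ‖c‖ * nrmF hS FX FY f := by
  unfold nrmF
  have h : mat hS FX FY (c • f) = c • mat hS FX FY f := by
    funext i; exact mat_smul hS FX FY c f i
  rw [h]
  exact famNorm_smul _ _

lemma nrmF_eq_zero (f : X ⟶ Y) (h : nrmF hS FX FY f = 0) : f = 0 := by
  have h1 := famNorm_eq_zero _ h
  refine mat_ext hS FX FY fun i a b => ?_
  rw [h1]
  simp [mat_apply]

lemma nrmF_comp (f : X ⟶ Y) (g : Y ⟶ Z) :
    nrmF hS FX FZ (f ≫ g) ≤ nrmF hS FX FY f * nrmF hS FY FZ g := by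
  unfold nrmF
  have h : mat hS FX FZ (f ≫ g) = fun i => mat hS FX FY f i * mat hS FY FZ g i := by
    funext i; exact mat_comp hS FX FY FZ f g i
  rw [h]
  exact famNorm_mul _ _

lemma nrmF_comp_dag (f : X ⟶ Y) : nrmF hS FX FX (f ≫ dagF hS FX FY f) = nrmF hS FX FY f ^ 2 := by
  unfold nrmF
  have h : mat hS FX FX (f ≫ dagF hS FX FY f) =
      fun i => mat hS FX FY f i * (mat hS FX FY f i).conjTranspose := by
    funext i; rw [mat_comp hS FX FY FX, mat_dagF]
  rw [h]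
  exact famNorm_sq _

lemma nrmF_complete (F : ℕ → (X ⟶ Y))
    (h : ∀ ε : ℝ, 0 < ε → ∃ N : ℕ, ∀ a b : ℕ, N ≤ a → N ≤ b → nrmF hS FX FY (F a - F b) < ε) :
    ∃ f : X ⟶ Y, ∀ ε : ℝ, 0 < ε → ∃ N : ℕ, ∀ a : ℕ, N ≤ a →
      nrmF hS FX FY (F a - f) < ε := by
  have hsub : ∀ f g : X ⟶ Y, mat hS FX FY (f - g) = mat hS FX FY f - mat hS FX FY g := by
    intro f g; funext i; exact mat_sub hS FX FY f g i
  unfold nrmF at h ⊢
  simp only [hsub] at h ⊢
  obtain ⟨f, hf⟩ := famNorm_complete (fun a => mat hS FX FY (F a)) h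
  refine ⟨ofMat FX FY f, fun ε hε => ?_⟩
  have h2 : mat hS FX FY (ofMat FX FY f) = f := by
    funext i; exact mat_ofMat hS FX FY f i
  rw [h2]
  exact hf ε hε

lemma dagF_positive (f : X ⟶ Y) :
    ∃ g : X ⟶ X, f ≫ dagF hS FX FY f = g ≫ dagF hS FX FX g := by
  choose B hB using fun i => exists_sqrt (mat hS FX FY f i)
  refine ⟨ofMat FX FX B, mat_ext hS FX FX fun i a b => ?_⟩
  rw [mat_comp hS FX FY FX, mat_dagF, mat_comp hS FX FX FX, mat_dagF, mat_ofMat, hB]

end Pool.Agent.H60R2.UF
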