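import Pool.Agent.H60R2.UF.Norm

/-!
# Frames of tensor products
-/

set_option autoImplicit false
set_option linter.unusedSectionVars false

open CategoryTheory CategoryTheory.Limits MonoidalCategory

namespace Pool.Agent.H60R2.UF

open Pool.Agent.Helper781.Fusion

universe w v u

variable {C : Type u} [Category.{v} C] [Abelian C] [Linear ℂ C]
variable {r : ℕ} {S : Fin r → C} (hS : IsSimpleList S) [hfd : ∀ X Y : C, FiniteDimensional ℂ (X ⟶ Y)]

/-- A decomposition gives a frame. -/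
noncomputable def frameOfDec {Z : C} (d : Dec S Z) : Frame S Z where
  J i := {b : Fin d.n // d.idx b = i}
  inc i b := eqToHom (congrArg S b.2.symm) ≫ d.inc b.1
  prj i b := d.prj b.1 ≫ eqToHom (congrArg S b.2)
  same := by
    rintro i ⟨b, rfl⟩
    simp [d.same]
  diff := by
    rintro i ⟨b, rfl⟩ ⟨b', hb'⟩ h
    have h1 : b ≠ b' := fun e => h (Subtype.ext e)
    simp only [Category.assoc]
    rw [← Category.assoc (d.inc b), d.diff b b' h1]
    simp
  total := by
    have h : ∀ (i : Fin r) (b : {b : Fin d.n // d.idx b = i}),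
        (d.prj b.1 ≫ eqToHom (congrArg S b.2)) ≫ eqToHom (congrArg S b.2.symm) ≫ d.inc b.1 =
        d.prj b.1 ≫ d.inc b.1 := by
      rintro i ⟨b, rfl⟩
      simp
    simp_rw [h]
    rw [← d.sum, ← Equiv.sum_comp (Equiv.sigmaFiberEquiv d.idx), Fintype.sum_sigma]
    rfl

/-- Bases of the spaces `Hom(S k, Z)` give a frame. -/
noncomputable def frameOfBases {Z : C} (F0 : Frame S Z) {ι : Fin r → Type} [∀ k, Fintype (ι k)]
    (B : ∀ k, Module.Basis (ι k) ℂ (S k ⟶ Z)) : Frame S Z where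
  J := ι
  inc k μ := B k μ
  prj k μ := ∑ b, (B k).repr (F0.inc k b) μ • F0.prj k b
  same := by
    classical
    intro k μ
    have h : B k μ = ∑ b, sc hS k (B k μ ≫ F0.prj k b) • F0.inc k b := by
      conv_lhs => rw [← Category.comp_id (B k μ), ← F0.total, Preadditive.comp_sum,
        Finset.sum_eq_single k (fun j _ hj => by
          rw [Preadditive.comp_sum]
          refine Finset.sum_eq_zero fun b _ => ?_
          rw [← Category.assoc, hom_zero hS (Ne.symm hj) (B k μ ≫ F0.prj j b), zero_comp])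
        (fun h => absurd (Finset.mem_univ _) h), Preadditive.comp_sum]
      refine Finset.sum_congr rfl fun b _ => ?_
      rw [← Category.assoc]
      conv_lhs => rw [sc_spec hS k (B k μ ≫ F0.prj k b)]
      simp
    rw [Preadditive.comp_sum]
    simp_rw [Linear.comp_smul]
    have h2 : ∀ b, (B k).repr (F0.inc k b) μ • (B k μ ≫ F0.prj k b) =
        ((B k).repr (F0.inc k b) μ * sc hS k (B k μ ≫ F0.prj k b)) • 𝟙 (S k) := by
      intro b
      conv_lhs => rw [sc_spec hS k (B k μ ≫ F0.prj k b)]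
      rw [smul_smul]
    simp_rw [h2, ← Finset.sum_smul]
    have h3 : (∑ b, (B k).repr (F0.inc k b) μ * sc hS k (B k μ ≫ F0.prj k b)) = 1 := by
      have h4 := congrArg (fun v => (B k).repr v μ) h
      simp only [Module.Basis.repr_self, map_sum, map_smul, Finsupp.coe_finsetSum,
        Finset.sum_apply, Finsupp.smul_apply, smul_eq_mul, Finsupp.single_eq_same] at h4
      rw [h4]
      exact Finset.sum_congr rfl fun b _ => mul_comm _ _
    rw [h3, one_smul]
  diff := by
    classical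
    intro k μ ν hμν
    have h : B k μ = ∑ b, sc hS k (B k μ ≫ F0.prj k b) • F0.inc k b := by
      conv_lhs => rw [← Category.comp_id (B k μ), ← F0.total, Preadditive.comp_sum,
        Finset.sum_eq_single k (fun j _ hj => by
          rw [Preadditive.comp_sum]
          refine Finset.sum_eq_zero fun b _ => ?_
          rw [← Category.assoc, hom_zero hS (Ne.symm hj) (B k μ ≫ F0.prj j b), zero_comp])
        (fun h => absurd (Finset.mem_univ _) h), Preadditive.comp_sum]
      refine Finset.sum_congr rfl fun b _ => ?_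
      rw [← Category.assoc]
      conv_lhs => rw [sc_spec hS k (B k μ ≫ F0.prj k b)]
      simp
    rw [Preadditive.comp_sum]
    simp_rw [Linear.comp_smul]
    have h2 : ∀ b, (B k).repr (F0.inc k b) ν • (B k μ ≫ F0.prj k b) =
        ((B k).repr (F0.inc k b) ν * sc hS k (B k μ ≫ F0.prj k b)) • 𝟙 (S k) := by
      intro b
      conv_lhs => rw [sc_spec hS k (B k μ ≫ F0.prj k b)]
      rw [smul_smul]
    simp_rw [h2, ← Finset.sum_smul]
    have h3 : (∑ b, (B k).repr (F0.inc k b) ν * sc hS k (B k μ ≫ F0.prj k b)) = 0 := by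
      have h4 := congrArg (fun v => (B k).repr v ν) h
      simp only [Module.Basis.repr_self, map_sum, map_smul, Finsupp.coe_finsetSum,
        Finset.sum_apply, Finsupp.smul_apply, smul_eq_mul] at h4
      rw [Finsupp.single_eq_of_ne (Ne.symm hμν)] at h4
      rw [h4]
      exact Finset.sum_congr rfl fun b _ => mul_comm _ _
    rw [h3, zero_smul]
  total := by
    rw [← F0.total]
    refine Finset.sum_congr rfl fun k _ => ?_
    simp_rw [Preadditive.sum_comp, Linear.smul_comp]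
    rw [Finset.sum_comm]
    refine Finset.sum_congr rfl fun b _ => ?_
    simp_rw [← Linear.comp_smul]
    rw [← Preadditive.comp_sum, (B k).sum_repr]

section

variable [MonoidalCategory C] [MonoidalPreadditive C] [MonoidalLinear ℂ C]

lemma smul_tensor' {X X' Y Y' : C} (c : ℂ) (f : X ⟶ X') (g : Y ⟶ Y') :
    (c • f) ⊗ₘ g = c • (f ⊗ₘ g) := by
  simp [MonoidalCategory.tensorHom_def]

lemma tensor_smul' {X X' Y Y' : C} (c : ℂ) (f : X ⟶ X') (g : Y ⟶ Y') :
    f ⊗ₘ (c • g) = c • (f ⊗ₘ g) := by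
  simp [MonoidalCategory.tensorHom_def]

variable (G : ∀ a b : Fin r, Frame S (S a ⊗ S b))

variable {X X' Y Y' Z Z' : C} (FX : Frame S X) (FX' : Frame S X') (FY : Frame S Y)
  (FY' : Frame S Y') (FZ : Frame S Z)

include hS in
open Classical in
lemma tensor_orth (k i j i' j' : Fin r) (a : FX.J i) (b : FY.J j) (μ : (G i j).J k)
    (a' : FX.J i') (b' : FY.J j') (μ' : (G i' j').J k) :
    ((G i j).inc k μ ≫ (FX.inc i a ⊗ₘ FY.inc j b)) ≫ (FX.prj i' a' ⊗ₘ FY.prj j' b') ≫
      (G i' j').prj k μ' =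
      if (⟨i, j, a, b, μ⟩ : Σ i : Fin r, Σ j : Fin r, FX.J i × FY.J j × (G i j).J k) =
        ⟨i', j', a', b', μ'⟩ then 𝟙 (S k) else 0 := by
  have e : ((G i j).inc k μ ≫ (FX.inc i a ⊗ₘ FY.inc j b)) ≫ (FX.prj i' a' ⊗ₘ FY.prj j' b') ≫
      (G i' j').prj k μ' = (G i j).inc k μ ≫
      ((FX.inc i a ≫ FX.prj i' a') ⊗ₘ (FY.inc j b ≫ FY.prj j' b')) ≫ (G i' j').prj k μ' := by
    simp only [Category.assoc, MonoidalCategory.tensorHom_comp_tensorHom_assoc]
  rw [e]
  by_cases hi : i = i'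
  · subst hi
    by_cases hj : j = j'
    · subst hj
      by_cases ha : a = a'
      · subst ha
        by_cases hb : b = b'
        · subst hb
          rw [FX.same, FY.same]
          simp only [id_tensorHom_id, Category.id_comp, Sigma.mk.injEq, heq_eq_eq, Prod.mk.injEq,
            true_and]
          exact (G i j).orth k μ μ'
        · rw [FY.diff j b b' hb, MonoidalPreadditive.tensor_zero, if_neg]
          · simp
          · simp [hb]
      · rw [FX.diff i a a' ha, MonoidalPreadditive.zero_tensor, if_neg]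
        · simp
        · simp [ha]
    · rw [hom_zero hS hj (FY.inc j b ≫ FY.prj j' b'), MonoidalPreadditive.tensor_zero, if_neg]
      · simp
      · intro h
        simp only [Sigma.mk.injEq, heq_eq_eq, true_and] at h
        exact hj h.1
  · rw [hom_zero hS hi (FX.inc i a ≫ FX.prj i' a'), MonoidalPreadditive.zero_tensor, if_neg]
    · simp
    · intro h
      simp only [Sigma.mk.injEq] at h
      exact hi h.1

/-- The frame of a tensor product. -/
noncomputable def tensorFrame : Frame S (X ⊗ Y) where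
  J k := Σ i : Fin r, Σ j : Fin r, FX.J i × FY.J j × (G i j).J k
  inc k x := (G x.1 x.2.1).inc k x.2.2.2.2 ≫ (FX.inc x.1 x.2.2.1 ⊗ₘ FY.inc x.2.1 x.2.2.2.1)
  prj k x := (FX.prj x.1 x.2.2.1 ⊗ₘ FY.prj x.2.1 x.2.2.2.1) ≫ (G x.1 x.2.1).prj k x.2.2.2.2
  same := by
    classical
    rintro k ⟨i, j, a, b, μ⟩
    have := tensor_orth hS G FX FY k i j i j a b μ a b μ
    rwa [if_pos rfl] at this
  diff := by
    classical
    rintro k ⟨i, j, a, b, μ⟩ ⟨i', j', a', b', μ'⟩ h
    have := tensor_orth hS G FX FY k i j i' j' a b μ a' b' μ'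
    rwa [if_neg h] at this
  total := by
    rw [Finset.sum_congr rfl fun k _ => Fintype.sum_sigma _]
    rw [Finset.sum_comm]
    have h1 : ∀ i : Fin r, ∑ k, ∑ x : Σ j : Fin r, FX.J i × FY.J j × (G i j).J k,
        ((FX.prj i x.2.1 ⊗ₘ FY.prj x.1 x.2.2.1) ≫ (G i x.1).prj k x.2.2.2) ≫
          (G i x.1).inc k x.2.2.2 ≫ (FX.inc i x.2.1 ⊗ₘ FY.inc x.1 x.2.2.1) =
        ∑ a, (FX.prj i a ≫ FX.inc i a) ⊗ₘ 𝟙 Y := by
      intro i
      rw [Finset.sum_congr rfl fun k _ => Fintype.sum_sigma _]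
      rw [Finset.sum_comm]
      have h2 : ∀ j : Fin r, ∑ k, ∑ x : FX.J i × FY.J j × (G i j).J k,
          ((FX.prj i x.1 ⊗ₘ FY.prj j x.2.1) ≫ (G i j).prj k x.2.2) ≫
            (G i j).inc k x.2.2 ≫ (FX.inc i x.1 ⊗ₘ FY.inc j x.2.1) =
          ∑ a, ∑ b, (FX.prj i a ≫ FX.inc i a) ⊗ₘ (FY.prj j b ≫ FY.inc j b) := by
        intro j
        simp_rw [Fintype.sum_prod_type]
        rw [Finset.sum_comm]
        refine Finset.sum_congr rfl fun a _ => ?_
        rw [Finset.sum_comm]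
        refine Finset.sum_congr rfl fun b _ => ?_
        have h3 : ∀ (k : Fin r) (μ : (G i j).J k),
            ((FX.prj i a ⊗ₘ FY.prj j b) ≫ (G i j).prj k μ) ≫ (G i j).inc k μ ≫
              (FX.inc i a ⊗ₘ FY.inc j b) =
            (FX.prj i a ⊗ₘ FY.prj j b) ≫ ((G i j).prj k μ ≫ (G i j).inc k μ) ≫
              (FX.inc i a ⊗ₘ FY.inc j b) := by
          intro k μ; simp only [Category.assoc]
        simp_rw [h3]
        simp_rw [← Preadditive.comp_sum, ← Preadditive.sum_comp]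
        rw [(G i j).total]
        simp
      refine (Finset.sum_congr rfl fun j _ => h2 j).trans ?_
      rw [Finset.sum_comm]
      refine Finset.sum_congr rfl fun a _ => ?_
      simp_rw [← tensor_sum]
      rw [FY.total]
    refine (Finset.sum_congr rfl fun i _ => h1 i).trans ?_
    simp_rw [← sum_tensor]
    rw [FX.total]
    simp

lemma tensorFrame_inc (k i j : Fin r) (a : FX.J i) (b : FY.J j) (μ : (G i j).J k) :
    (tensorFrame hS G FX FY).inc k ⟨i, j, a, b, μ⟩ =
      (G i j).inc k μ ≫ (FX.inc i a ⊗ₘ FY.inc j b) := rfl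

lemma tensorFrame_prj (k i j : Fin r) (a : FX.J i) (b : FY.J j) (μ : (G i j).J k) :
    (tensorFrame hS G FX FY).prj k ⟨i, j, a, b, μ⟩ =
      (FX.prj i a ⊗ₘ FY.prj j b) ≫ (G i j).prj k μ := rfl

open Classical in
lemma mat_tensor_same (f : X ⟶ X') (g : Y ⟶ Y') (k i j : Fin r) (a : FX.J i) (b : FY.J j)
    (μ : (G i j).J k) (a' : FX'.J i) (b' : FY'.J j) (μ' : (G i j).J k) :
    mat hS (tensorFrame hS G FX FY) (tensorFrame hS G FX' FY') (f ⊗ₘ g) k
      ⟨i, j, a, b, μ⟩ ⟨i, j, a', b', μ'⟩ =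
      mat hS FX FX' f i a a' * mat hS FY FY' g j b b' * (if μ = μ' then 1 else 0) := by
  rw [mat_apply, tensorFrame_inc, tensorFrame_prj]
  have e : ((G i j).inc k μ ≫ (FX.inc i a ⊗ₘ FY.inc j b)) ≫ (f ⊗ₘ g) ≫
      (FX'.prj i a' ⊗ₘ FY'.prj j b') ≫ (G i j).prj k μ' =
      (G i j).inc k μ ≫ ((FX.inc i a ≫ f ≫ FX'.prj i a') ⊗ₘ
        (FY.inc j b ≫ g ≫ FY'.prj j b')) ≫ (G i j).prj k μ' := by
    simp only [Category.assoc, MonoidalCategory.tensorHom_comp_tensorHom_assoc]
  rw [e, inc_comp_prj hS FX FX', inc_comp_prj hS FY FY', smul_tensor', tensor_smul',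
    id_tensorHom_id, Linear.smul_comp, Linear.smul_comp, Category.id_comp, Linear.comp_smul,
    Linear.comp_smul, (G i j).orth, map_smul, map_smul, smul_eq_mul, smul_eq_mul, mul_assoc]
  congr 2
  split_ifs <;> simp

lemma mat_tensor_ne (f : X ⟶ X') (g : Y ⟶ Y') (k i j i' j' : Fin r) (a : FX.J i) (b : FY.J j)
    (μ : (G i j).J k) (a' : FX'.J i') (b' : FY'.J j') (μ' : (G i' j').J k)
    (h : ¬ (i = i' ∧ j = j')) :
    mat hS (tensorFrame hS G FX FY) (tensorFrame hS G FX' FY') (f ⊗ₘ g) k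
      ⟨i, j, a, b, μ⟩ ⟨i', j', a', b', μ'⟩ = 0 := by
  rw [mat_apply, tensorFrame_inc, tensorFrame_prj]
  have e : ((G i j).inc k μ ≫ (FX.inc i a ⊗ₘ FY.inc j b)) ≫ (f ⊗ₘ g) ≫
      (FX'.prj i' a' ⊗ₘ FY'.prj j' b') ≫ (G i' j').prj k μ' =
      (G i j).inc k μ ≫ ((FX.inc i a ≫ f ≫ FX'.prj i' a') ⊗ₘ
        (FY.inc j b ≫ g ≫ FY'.prj j' b')) ≫ (G i' j').prj k μ' := by
    simp only [Category.assoc, MonoidalCategory.tensorHom_comp_tensorHom_assoc]
  rw [e]
  by_cases hi : i = i'
  · subst hi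
    have hj : j ≠ j' := fun hj => h ⟨rfl, hj⟩
    rw [hom_zero hS hj (FY.inc j b ≫ g ≫ FY'.prj j' b')]
    simp
  · rw [hom_zero hS hi (FX.inc i a ≫ f ≫ FX'.prj i' a')]
    simp

lemma dagF_tensor (f : X ⟶ X') (g : Y ⟶ Y') :
    dagF hS (tensorFrame hS G FX FY) (tensorFrame hS G FX' FY') (f ⊗ₘ g) =
      dagF hS FX FX' f ⊗ₘ dagF hS FY FY' g := by
  classical
  apply dagF_eq_of_mat
  rintro k ⟨i, j, a, b, μ⟩ ⟨i', j', a', b', μ'⟩
  by_cases h : i = i' ∧ j = j'
  · obtain ⟨rfl, rfl⟩ := h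
    rw [mat_tensor_same, mat_tensor_same, mat_dagF_apply, mat_dagF_apply]
    simp only [map_mul]
    congr 1
    by_cases hμ : μ = μ'
    · subst hμ; simp
    · rw [if_neg hμ, if_neg (Ne.symm hμ)]; simp
  · rw [mat_tensor_ne hS G FX FX' FY FY' f g k i j i' j' a b μ a' b' μ' h,
      mat_tensor_ne hS G FX' FX FY' FY _ _ k i' j' i j a' b' μ' a b μ
        (fun h' => h ⟨h'.1.symm, h'.2.symm⟩)]
    simp

end

end Pool.Agent.H60R2.UF
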