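import Pool.Agent.H60R2.UF.Assoc

/-!
# The unit constraints are unitary for a suitable frame of the unit
-/

set_option autoImplicit false
set_option linter.unusedSectionVars false

open CategoryTheory CategoryTheory.Limits MonoidalCategory

namespace Pool.Agent.H60R2.UF

open Pool.Agent.Helper781.Fusion

universe w v u

variable {C : Type u} [Category.{v} C] [Abelian C] [Linear ℂ C]
variable {r : ℕ} {S : Fin r → C} (hS : IsSimpleList S) [hfd : ∀ X Y : C, FiniteDimensional ℂ (X ⟶ Y)]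

/-- The frame of an object isomorphic to a member of the list. -/
noncomputable def single {i0 : Fin r} {X : C} (e : S i0 ≅ X) : Frame S X where
  J i := PLift (i = i0)
  inc i h := eqToHom (congrArg S h.down) ≫ e.hom
  prj i h := e.inv ≫ eqToHom (congrArg S h.down.symm)
  same := by
    rintro i ⟨rfl⟩
    simp
  diff := by
    rintro i ⟨rfl⟩ ⟨_⟩ h
    exact absurd rfl h
  total := by
    rw [Finset.sum_eq_single i0]
    · rw [Fintype.sum_eq_single (⟨rfl⟩ : PLift (i0 = i0))]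
      · simp
      · intro x hx
        exact absurd (Subsingleton.elim _ _) hx
    · intro i _ hi
      have : IsEmpty (PLift (i = i0)) := ⟨fun h => hi h.down⟩
      simp
    · intro h; exact absurd (Finset.mem_univ _) h

lemma single_inc {i0 : Fin r} {X : C} (e : S i0 ≅ X) :
    (single e).inc i0 ⟨rfl⟩ = e.hom := by simp [single]

lemma single_prj {i0 : Fin r} {X : C} (e : S i0 ≅ X) :
    (single e).prj i0 ⟨rfl⟩ = e.inv := by simp [single]

variable [MonoidalCategory C] [MonoidalPreadditive C] [MonoidalLinear ℂ C]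
variable (G : ∀ a b : Fin r, Frame S (S a ⊗ S b))

section unit

variable {i0 : Fin r} (u : S i0 ≅ 𝟙_ C)

/-- Scalar of the right unit constraint. -/
noncomputable def xr (i : Fin r) (μ : (G i i0).J i) : ℂ :=
  sc hS i ((G i i0).inc i μ ≫ S i ◁ u.hom ≫ (ρ_ (S i)).hom)

/-- Scalar of the inverse of the right unit constraint. -/
noncomputable def yr (i : Fin r) (μ : (G i i0).J i) : ℂ :=
  sc hS i ((ρ_ (S i)).inv ≫ S i ◁ u.inv ≫ (G i i0).prj i μ)

/-- Scalar of the left unit constraint. -/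
noncomputable def xl (i : Fin r) (μ : (G i0 i).J i) : ℂ :=
  sc hS i ((G i0 i).inc i μ ≫ u.hom ▷ S i ≫ (λ_ (S i)).hom)

/-- Scalar of the inverse of the left unit constraint. -/
noncomputable def yl (i : Fin r) (μ : (G i0 i).J i) : ℂ :=
  sc hS i ((λ_ (S i)).inv ≫ u.inv ▷ S i ≫ (G i0 i).prj i μ)

lemma xr_yr (i : Fin r) (μ : (G i i0).J i) : xr hS G u i μ * yr hS G u i μ = 1 := by
  unfold xr yr
  rw [← sc_comp]
  have h : ((G i i0).inc i μ ≫ S i ◁ u.hom ≫ (ρ_ (S i)).hom) ≫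
      (ρ_ (S i)).inv ≫ S i ◁ u.inv ≫ (G i i0).prj i μ = 𝟙 (S i) := by
    simp only [Category.assoc, Iso.hom_inv_id_assoc]
    rw [← MonoidalCategory.whiskerLeft_comp_assoc, u.hom_inv_id,
      MonoidalCategory.whiskerLeft_id, Category.id_comp, (G i i0).same]
  rw [h, sc_one]

lemma xl_yl (i : Fin r) (μ : (G i0 i).J i) : xl hS G u i μ * yl hS G u i μ = 1 := by
  unfold xl yl
  rw [← sc_comp]
  have h : ((G i0 i).inc i μ ≫ u.hom ▷ S i ≫ (λ_ (S i)).hom) ≫
      (λ_ (S i)).inv ≫ u.inv ▷ S i ≫ (G i0 i).prj i μ = 𝟙 (S i) := by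
    simp only [Category.assoc, Iso.hom_inv_id_assoc]
    rw [← MonoidalCategory.comp_whiskerRight_assoc, u.hom_inv_id,
      MonoidalCategory.id_whiskerRight, Category.id_comp, (G i0 i).same]
  rw [h, sc_one]

lemma inc_eq_xr (i : Fin r) (μ : (G i i0).J i) :
    (G i i0).inc i μ = xr hS G u i μ • ((ρ_ (S i)).inv ≫ S i ◁ u.inv) := by
  have h := sc_spec hS i ((G i i0).inc i μ ≫ S i ◁ u.hom ≫ (ρ_ (S i)).hom)
  have h2 : (G i i0).inc i μ = ((G i i0).inc i μ ≫ S i ◁ u.hom ≫ (ρ_ (S i)).hom) ≫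
      (ρ_ (S i)).inv ≫ S i ◁ u.inv := by
    simp only [Category.assoc, Iso.hom_inv_id_assoc]
    rw [← MonoidalCategory.whiskerLeft_comp, u.hom_inv_id, MonoidalCategory.whiskerLeft_id,
      Category.comp_id]
  conv_lhs => rw [h2, h]
  rw [Linear.smul_comp, Category.id_comp]
  rfl

lemma prj_eq_yr (i : Fin r) (μ : (G i i0).J i) :
    (G i i0).prj i μ = yr hS G u i μ • (S i ◁ u.hom ≫ (ρ_ (S i)).hom) := by
  have h := sc_spec hS i ((ρ_ (S i)).inv ≫ S i ◁ u.inv ≫ (G i i0).prj i μ)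
  have h2 : (G i i0).prj i μ = (S i ◁ u.hom ≫ (ρ_ (S i)).hom) ≫
      (ρ_ (S i)).inv ≫ S i ◁ u.inv ≫ (G i i0).prj i μ := by
    simp only [Category.assoc, Iso.hom_inv_id_assoc]
    rw [← MonoidalCategory.whiskerLeft_comp_assoc, u.hom_inv_id,
      MonoidalCategory.whiskerLeft_id, Category.id_comp]
  conv_lhs => rw [h2, h]
  rw [Linear.comp_smul, Category.comp_id]
  rfl

lemma inc_eq_xl (i : Fin r) (μ : (G i0 i).J i) :
    (G i0 i).inc i μ = xl hS G u i μ • ((λ_ (S i)).inv ≫ u.inv ▷ S i) := by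
  have h := sc_spec hS i ((G i0 i).inc i μ ≫ u.hom ▷ S i ≫ (λ_ (S i)).hom)
  have h2 : (G i0 i).inc i μ = ((G i0 i).inc i μ ≫ u.hom ▷ S i ≫ (λ_ (S i)).hom) ≫
      (λ_ (S i)).inv ≫ u.inv ▷ S i := by
    simp only [Category.assoc, Iso.hom_inv_id_assoc]
    rw [← MonoidalCategory.comp_whiskerRight, u.hom_inv_id, MonoidalCategory.id_whiskerRight,
      Category.comp_id]
  conv_lhs => rw [h2, h]
  rw [Linear.smul_comp, Category.id_comp]
  rfl

lemma prj_eq_yl (i : Fin r) (μ : (G i0 i).J i) :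
    (G i0 i).prj i μ = yl hS G u i μ • (u.hom ▷ S i ≫ (λ_ (S i)).hom) := by
  have h := sc_spec hS i ((λ_ (S i)).inv ≫ u.inv ▷ S i ≫ (G i0 i).prj i μ)
  have h2 : (G i0 i).prj i μ = (u.hom ▷ S i ≫ (λ_ (S i)).hom) ≫
      (λ_ (S i)).inv ≫ u.inv ▷ S i ≫ (G i0 i).prj i μ := by
    simp only [Category.assoc, Iso.hom_inv_id_assoc]
    rw [← MonoidalCategory.comp_whiskerRight_assoc, u.hom_inv_id,
      MonoidalCategory.id_whiskerRight, Category.id_comp]
  conv_lhs => rw [h2, h]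
  rw [Linear.comp_smul, Category.comp_id]
  rfl

lemma fEntry_unit (i j k : Fin r) (μ : (G i i0).J i) (μ' : (G i0 j).J j) (ν : (G i j).J k) :
    fEntry hS G i i0 j k i j μ ν μ' ν = xr hS G u i μ * yl hS G u j μ' := by
  unfold fEntry
  rw [inc_eq_xr hS G u i μ, prj_eq_yl hS G u j μ']
  have h : (xr hS G u i μ • ((ρ_ (S i)).inv ≫ S i ◁ u.inv)) ▷ S j ≫ (α_ (S i) (S i0) (S j)).hom ≫
      S i ◁ (yl hS G u j μ' • (u.hom ▷ S j ≫ (λ_ (S j)).hom)) ≫ (G i j).prj k ν =
      (xr hS G u i μ * yl hS G u j μ') • (G i j).prj k ν := by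
    rw [MonoidalLinear.smul_whiskerRight, MonoidalLinear.whiskerLeft_smul, Linear.smul_comp,
      Linear.smul_comp, Linear.comp_smul, Linear.comp_smul, smul_smul]
    congr 1
    simp only [comp_whiskerRight, MonoidalCategory.whiskerLeft_comp, Category.assoc]
    rw [associator_naturality_middle_assoc, ← MonoidalCategory.whiskerLeft_comp_assoc,
      ← MonoidalCategory.comp_whiskerRight, u.inv_hom_id]
    simp
  rw [h, Linear.comp_smul, (G i j).same, sc_smul_one]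

lemma fEntryInv_unit (i j k : Fin r) (μ : (G i i0).J i) (μ' : (G i0 j).J j) (ν : (G i j).J k) :
    fEntryInv hS G i i0 j k i j μ ν μ' ν = xl hS G u j μ' * yr hS G u i μ := by
  unfold fEntryInv
  rw [inc_eq_xl hS G u j μ', prj_eq_yr hS G u i μ]
  have h : S i ◁ (xl hS G u j μ' • ((λ_ (S j)).inv ≫ u.inv ▷ S j)) ≫
      (α_ (S i) (S i0) (S j)).inv ≫
      (yr hS G u i μ • (S i ◁ u.hom ≫ (ρ_ (S i)).hom)) ▷ S j ≫ (G i j).prj k ν =
      (xl hS G u j μ' * yr hS G u i μ) • (G i j).prj k ν := by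
    rw [MonoidalLinear.smul_whiskerRight, MonoidalLinear.whiskerLeft_smul, Linear.smul_comp,
      Linear.smul_comp, Linear.comp_smul, Linear.comp_smul, smul_smul]
    congr 1
    simp only [comp_whiskerRight, MonoidalCategory.whiskerLeft_comp, Category.assoc]
    rw [associator_inv_naturality_middle_assoc, ← MonoidalCategory.comp_whiskerRight_assoc,
      ← MonoidalCategory.whiskerLeft_comp, u.inv_hom_id]
    simp
  rw [h, Linear.comp_smul, (G i j).same, sc_smul_one]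

lemma norm_eq_of_mul_one {x y x' y' : ℂ} (h1 : x * y = 1) (h2 : x' * y' = 1)
    (h : x' * y = (starRingEnd ℂ) (x * y')) : ‖x‖ = ‖x'‖ := by
  have hx : ‖x‖ ≠ 0 := by
    intro h0
    rw [norm_eq_zero] at h0
    rw [h0, zero_mul] at h1
    exact zero_ne_one h1
  have hx' : ‖x'‖ ≠ 0 := by
    intro h0
    rw [norm_eq_zero] at h0
    rw [h0, zero_mul] at h2
    exact zero_ne_one h2
  have e1 : ‖x‖ * ‖y‖ = 1 := by rw [← norm_mul, h1, norm_one]
  have e2 : ‖x'‖ * ‖y'‖ = 1 := by rw [← norm_mul, h2, norm_one]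
  have e3 : ‖x'‖ * ‖y‖ = ‖x‖ * ‖y'‖ := by
    rw [← norm_mul, h, RCLike.norm_conj, norm_mul]
  have hp : 0 < ‖x‖ := lt_of_le_of_ne (norm_nonneg _) (Ne.symm hx)
  have hp' : 0 < ‖x'‖ := lt_of_le_of_ne (norm_nonneg _) (Ne.symm hx')
  have e4 : ‖y‖ = 1 / ‖x‖ := by field_simp; linarith
  have e5 : ‖y'‖ = 1 / ‖x'‖ := by field_simp; linarith
  rw [e4, e5] at e3
  field_simp at e3
  have : ‖x‖ ^ 2 = ‖x'‖ ^ 2 := by linarith
  exact (pow_left_inj₀ hp.le hp'.le two_ne_zero).mp this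

lemma norm_xr_eq_xl (hG : UFrame hS G) (i j k : Fin r) (μ : (G i i0).J i) (μ' : (G i0 j).J j)
    (ν : (G i j).J k) : ‖xr hS G u i μ‖ = ‖xl hS G u j μ'‖ := by
  refine norm_eq_of_mul_one (xr_yr hS G u i μ) (xl_yl hS G u j μ') ?_
  rw [← fEntryInv_unit hS G u i j k μ μ' ν, ← fEntry_unit hS G u i j k μ μ' ν]
  exact hG i i0 j k i j μ ν μ' ν

/-- The right unitor is unitary if the scalars have modulus one. -/
lemma dagF_rightUnitor {X : C} (FX : Frame S X) (h : ∀ i μ, ‖xr hS G u i μ‖ = 1) :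
    dagF hS (tensorFrame hS G FX (single u)) FX (ρ_ X).hom = (ρ_ X).inv := by
  classical
  apply dagF_eq_of_mat
  rintro k ⟨i, j, a, ⟨hj⟩, μ⟩ a'
  subst hj
  rw [mat_apply, mat_apply, tensorFrame_inc, tensorFrame_prj, single_inc, single_prj]
  have e1 : ((G i j).inc k μ ≫ (FX.inc i a ⊗ₘ u.hom)) ≫ (ρ_ X).hom ≫ FX.prj k a' =
      ((G i j).inc k μ ≫ S i ◁ u.hom ≫ (ρ_ (S i)).hom) ≫ FX.inc i a ≫ FX.prj k a' := by
    rw [MonoidalCategory.tensorHom_def']
    simp
  have e2 : FX.inc k a' ≫ (ρ_ X).inv ≫ (FX.prj i a ⊗ₘ u.inv) ≫ (G i j).prj k μ =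
      (FX.inc k a' ≫ FX.prj i a) ≫ (ρ_ (S i)).inv ≫ S i ◁ u.inv ≫ (G i j).prj k μ := by
    rw [MonoidalCategory.tensorHom_def]
    simp
  rw [e1, e2]
  by_cases hi : i = k
  · subst hi
    by_cases ha : a = a'
    · subst ha
      rw [FX.same, Category.id_comp, Category.comp_id]
      change yr hS G u i μ = (starRingEnd ℂ) (xr hS G u i μ)
      have h1 := xr_yr hS G u i μ
      have h2 := Complex.mul_conj (xr hS G u i μ)
      rw [Complex.normSq_eq_norm_sq, h i μ] at h2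
      have h3 : xr hS G u i μ ≠ 0 := by
        intro h0; rw [h0, zero_mul] at h1; exact zero_ne_one h1
      apply mul_left_cancel₀ h3
      rw [h1, h2]
      norm_num
    · rw [FX.diff i a a' ha, FX.diff i a' a (Ne.symm ha)]
      simp
  · rw [hom_zero hS hi (FX.inc i a ≫ FX.prj k a'),
      hom_zero hS (Ne.symm hi) (FX.inc k a' ≫ FX.prj i a)]
    simp

/-- The left unitor is unitary if the scalars have modulus one. -/
lemma dagF_leftUnitor {X : C} (FX : Frame S X) (h : ∀ i μ, ‖xl hS G u i μ‖ = 1) :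
    dagF hS (tensorFrame hS G (single u) FX) FX (λ_ X).hom = (λ_ X).inv := by
  classical
  apply dagF_eq_of_mat
  rintro k ⟨j, i, ⟨hj⟩, a, μ⟩ a'
  subst hj
  rw [mat_apply, mat_apply, tensorFrame_inc, tensorFrame_prj, single_inc, single_prj]
  have e1 : ((G j i).inc k μ ≫ (u.hom ⊗ₘ FX.inc i a)) ≫ (λ_ X).hom ≫ FX.prj k a' =
      ((G j i).inc k μ ≫ u.hom ▷ S i ≫ (λ_ (S i)).hom) ≫ FX.inc i a ≫ FX.prj k a' := by
    rw [MonoidalCategory.tensorHom_def]
    simp
  have e2 : FX.inc k a' ≫ (λ_ X).inv ≫ (u.inv ⊗ₘ FX.prj i a) ≫ (G j i).prj k μ =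
      (FX.inc k a' ≫ FX.prj i a) ≫ (λ_ (S i)).inv ≫ u.inv ▷ S i ≫ (G j i).prj k μ := by
    rw [MonoidalCategory.tensorHom_def']
    simp
  rw [e1, e2]
  by_cases hi : i = k
  · subst hi
    by_cases ha : a = a'
    · subst ha
      rw [FX.same, Category.id_comp, Category.comp_id]
      change yl hS G u i μ = (starRingEnd ℂ) (xl hS G u i μ)
      have h1 := xl_yl hS G u i μ
      have h2 := Complex.mul_conj (xl hS G u i μ)
      rw [Complex.normSq_eq_norm_sq, h i μ] at h2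
      have h3 : xl hS G u i μ ≠ 0 := by
        intro h0; rw [h0, zero_mul] at h1; exact zero_ne_one h1
      apply mul_left_cancel₀ h3
      rw [h1, h2]
      norm_num
    · rw [FX.diff i a a' ha, FX.diff i a' a (Ne.symm ha)]
      simp
  · rw [hom_zero hS hi (FX.inc i a ≫ FX.prj k a'),
      hom_zero hS (Ne.symm hi) (FX.inc k a' ≫ FX.prj i a)]
    simp

end unit

end Pool.Agent.H60R2.UF
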