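import Pool.Agent.H60R2.UF.Unit

/-!
# Choice of the frame of the unit
-/

set_option autoImplicit false
set_option linter.unusedSectionVars false

open CategoryTheory CategoryTheory.Limits MonoidalCategory

namespace Pool.Agent.H60R2.UF

open Pool.Agent.Helper781.Fusion

universe w v u

variable {C : Type u} [Category.{v} C] [Abelian C] [Linear ℂ C]
variable {r : ℕ} {S : Fin r → C} (hS : IsSimpleList S) [hfd : ∀ X Y : C, FiniteDimensional ℂ (X ⟶ Y)]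
variable [MonoidalCategory C] [MonoidalPreadditive C] [MonoidalLinear ℂ C] [RigidCategory C]

lemma eq_zero_of_frame {Z W : C} (F : Frame S Z) (f : W ⟶ Z)
    (h : ∀ i a, f ≫ F.prj i a = 0) : f = 0 := by
  rw [← Category.comp_id f, ← F.total, Preadditive.comp_sum]
  refine Finset.sum_eq_zero fun i _ => ?_
  rw [Preadditive.comp_sum]
  refine Finset.sum_eq_zero fun a _ => ?_
  rw [← Category.assoc, h, zero_comp]

include hS in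
/-- The coevaluation of a nonzero object splits. -/
lemma exists_retraction {i0 : Fin r} (u : S i0 ≅ 𝟙_ C) (F0 : ∀ Z : C, Frame S Z) (Y : C)
    (hY : 𝟙 Y ≠ 0) : ∃ p : Y ⊗ Yᘁ ⟶ 𝟙_ C, η_ Y Yᘁ ≫ p = 𝟙 (𝟙_ C) := by
  have h1 : η_ Y Yᘁ ≠ 0 := by
    intro h
    apply hY
    have h2 := ExactPairing.evaluation_coevaluation Y Yᘁ
    rw [h] at h2
    simp only [MonoidalPreadditive.zero_whiskerRight, zero_comp] at h2
    have h3 : (λ_ Y).inv ≫ ((λ_ Y).hom ≫ (ρ_ Y).inv) ≫ (ρ_ Y).hom = 0 := by rw [← h2]; simp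
    simpa using h3
  have h2 : ∃ i, ∃ a, u.hom ≫ η_ Y Yᘁ ≫ (F0 (Y ⊗ Yᘁ)).prj i a ≠ 0 := by
    by_contra hcon
    push Not at hcon
    apply h1
    have h3 : u.hom ≫ η_ Y Yᘁ = 0 := by
      refine eq_zero_of_frame (F0 (Y ⊗ Yᘁ)) _ fun i a => ?_
      rw [Category.assoc]
      exact hcon i a
    have h4 : u.inv ≫ u.hom ≫ η_ Y Yᘁ = 0 := by rw [h3, comp_zero]
    simpa using h4
  obtain ⟨i, a, h3⟩ := h2
  have hi : i0 = i := by
    by_contra hne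
    exact h3 (hom_zero hS hne _)
  subst hi
  set c := sc hS i0 (u.hom ≫ η_ Y Yᘁ ≫ (F0 (Y ⊗ Yᘁ)).prj i0 a) with hc
  have h4 : u.hom ≫ η_ Y Yᘁ ≫ (F0 (Y ⊗ Yᘁ)).prj i0 a = c • 𝟙 (S i0) := sc_spec hS i0 _
  have hc0 : c ≠ 0 := by
    intro h5
    rw [h4, h5, zero_smul] at h3
    exact h3 rfl
  refine ⟨c⁻¹ • ((F0 (Y ⊗ Yᘁ)).prj i0 a ≫ u.hom), ?_⟩
  rw [Linear.comp_smul]
  have h5 : η_ Y Yᘁ ≫ (F0 (Y ⊗ Yᘁ)).prj i0 a ≫ u.hom = c • 𝟙 (𝟙_ C) := by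
    have h6 : η_ Y Yᘁ ≫ (F0 (Y ⊗ Yᘁ)).prj i0 a ≫ u.hom =
        u.inv ≫ (u.hom ≫ η_ Y Yᘁ ≫ (F0 (Y ⊗ Yᘁ)).prj i0 a) ≫ u.hom := by simp
    rw [h6, h4]
    simp
  rw [h5, smul_smul, inv_mul_cancel₀ hc0, one_smul]

include hS in
lemma tensor_ne_zero {i0 : Fin r} (u : S i0 ≅ 𝟙_ C) (F0 : ∀ Z : C, Frame S Z) (X Y : C)
    (hX : 𝟙 X ≠ 0) (hY : 𝟙 Y ≠ 0) : 𝟙 (X ⊗ Y) ≠ 0 := by
  intro h
  apply hX
  obtain ⟨p, hp⟩ := exists_retraction hS u F0 Y hY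
  have h1 : 𝟙 X = (ρ_ X).inv ≫ X ◁ η_ Y Yᘁ ≫ (α_ X Y Yᘁ).inv ≫ (𝟙 (X ⊗ Y)) ▷ Yᘁ ≫
      (α_ X Y Yᘁ).hom ≫ X ◁ p ≫ (ρ_ X).hom := by
    simp only [id_whiskerRight, Category.id_comp, Iso.inv_hom_id_assoc]
    rw [← MonoidalCategory.whiskerLeft_comp_assoc, hp]
    simp
  rw [h1, h]
  simp

lemma id_ne_zero (i : Fin r) (hS : IsSimpleList S) : 𝟙 (S i) ≠ 0 := by
  have := hS.simple i
  exact id_nonzero (S i)

include hS in
lemma exists_index {i0 : Fin r} (u : S i0 ≅ 𝟙_ C) (F0 : ∀ Z : C, Frame S Z)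
    (G : ∀ a b : Fin r, Frame S (S a ⊗ S b)) (i j : Fin r) : ∃ k, Nonempty ((G i j).J k) := by
  by_contra hcon
  push Not at hcon
  apply tensor_ne_zero hS u F0 (S i) (S j) (id_ne_zero i hS) (id_ne_zero j hS)
  rw [← (G i j).total]
  refine Finset.sum_eq_zero fun k _ => ?_
  have := hcon k
  simp

include hS in
lemma exists_index_unit {i0 : Fin r} (u : S i0 ≅ 𝟙_ C) (F0 : ∀ Z : C, Frame S Z)
    (G : ∀ a b : Fin r, Frame S (S a ⊗ S b)) : Nonempty ((G i0 i0).J i0) := by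
  obtain ⟨k, ⟨μ⟩⟩ := exists_index hS u F0 G i0 i0
  have hk : k = i0 := by
    by_contra hne
    have h1 : (G i0 i0).inc k μ ≫ S i0 ◁ u.hom ≫ (ρ_ (S i0)).hom = 0 := hom_zero hS hne _
    have h2 : (G i0 i0).inc k μ = ((G i0 i0).inc k μ ≫ S i0 ◁ u.hom ≫ (ρ_ (S i0)).hom) ≫
        (ρ_ (S i0)).inv ≫ S i0 ◁ u.inv := by
      simp only [Category.assoc, Iso.hom_inv_id_assoc]
      rw [← MonoidalCategory.whiskerLeft_comp, u.hom_inv_id, MonoidalCategory.whiskerLeft_id,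
        Category.comp_id]
    have h3 := (G i0 i0).same k μ
    rw [h2, h1] at h3
    simp only [zero_comp] at h3
    exact id_ne_zero k hS h3.symm
  subst hk
  exact ⟨μ⟩

/-- Rescaling of an isomorphism. -/
noncomputable def scaleIso {X Y : C} (u : X ≅ Y) (t : ℂ) (ht : t ≠ 0) : X ≅ Y where
  hom := t • u.hom
  inv := t⁻¹ • u.inv
  hom_inv_id := by
    rw [Linear.smul_comp, Linear.comp_smul, smul_smul, mul_inv_cancel₀ ht, one_smul, u.hom_inv_id]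
  inv_hom_id := by
    rw [Linear.smul_comp, Linear.comp_smul, smul_smul, inv_mul_cancel₀ ht, one_smul, u.inv_hom_id]

theorem exists_unit {i0 : Fin r} (u0 : S i0 ≅ 𝟙_ C) (F0 : ∀ Z : C, Frame S Z)
    (G : ∀ a b : Fin r, Frame S (S a ⊗ S b)) (hG : UFrame hS G) :
    ∃ u : S i0 ≅ 𝟙_ C, (∀ i μ, ‖xr hS G u i μ‖ = 1) ∧ (∀ i μ, ‖xl hS G u i μ‖ = 1) := by
  obtain ⟨μ0⟩ := exists_index_unit hS u0 F0 G
  have hx0 : xr hS G u0 i0 μ0 ≠ 0 := by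
    intro h
    have := xr_yr hS G u0 i0 μ0
    rw [h, zero_mul] at this
    exact zero_ne_one this
  set t : ℂ := (xr hS G u0 i0 μ0)⁻¹ with ht
  have ht0 : t ≠ 0 := inv_ne_zero hx0
  set u := scaleIso u0 t ht0 with hu
  have h1 : xr hS G u i0 μ0 = 1 := by
    have : xr hS G u i0 μ0 = t * xr hS G u0 i0 μ0 := by
      unfold xr
      change sc hS i0 ((G i0 i0).inc i0 μ0 ≫ S i0 ◁ (t • u0.hom) ≫ (ρ_ (S i0)).hom) = _
      rw [MonoidalLinear.whiskerLeft_smul, Linear.smul_comp, Linear.comp_smul, map_smul,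
        smul_eq_mul]
    rw [this, ht, inv_mul_cancel₀ hx0]
  have h2 : ∀ i μ, ‖xl hS G u i μ‖ = 1 := by
    intro i μ
    obtain ⟨k, ⟨ν⟩⟩ := exists_index hS u0 F0 G i0 i
    rw [← norm_xr_eq_xl hS G u hG i0 i k μ0 μ ν, h1, norm_one]
  refine ⟨u, fun i μ => ?_, h2⟩
  obtain ⟨k, ⟨ν⟩⟩ := exists_index hS u0 F0 G i i0
  rw [norm_xr_eq_xl hS G u hG i i0 k μ μ0 ν, h2]

end Pool.Agent.H60R2.UF
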